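import Pool.Agent.Helper86.TF.LD
import Pool.Agent.Helper72.TF.Core
import Pool.Agent.Helper79.G.Flip

/-!
MP_e98778_an FULL, module G, G9, part 4: the systole of a triangulated translation surface (length of
the shortest edge of the triangulations which are reachable by flips) and its behaviour under
`g_{s,u}`.
-/

open MeasureTheory Set Pool.Agent.Helper72.TF Pool.Agent.Helper79.G Pool.Agent.Helper87.LS
open scoped Pointwise

namespace Pool.Agent.Helper86.TF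

variable {H : Type}

/-! ### Linear maps and flips -/

theorem tri_ext {T T' : Tri H} (h1 : T.next = T'.next) (h2 : T.opp = T'.opp) (h3 : T.vec = T'.vec) : T = T' := by
  cases T; cases T'; simp_all

theorem act_flippable (T : Tri H) (A : ℂ ≃ₗ[ℝ] ℂ) (hA : LinearMap.det (A : ℂ →ₗ[ℝ] ℂ) = 1) (e : H) :
    (act T A hA).Flippable e ↔ T.Flippable e := by
  unfold Tri.Flippable act Tri.prev
  simp only [cr_map, hA, one_mul]

open Classical in
theorem act_flip (T : Tri H) (A : ℂ ≃ₗ[ℝ] ℂ) (hA : LinearMap.det (A : ℂ →ₗ[ℝ] ℂ) = 1) (e : H)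
    (he : T.Flippable e) :
    act (T.flip e he) A hA = (act T A hA).flip e ((act_flippable T A hA e).2 he) := by
  apply tri_ext
  · rfl
  · rfl
  · funext h
    change A (T.flipVec e h) = (act T A hA).flipVec e h
    unfold Tri.flipVec
    change A (if h = e then T.vec (T.prev (T.opp e)) + T.vec (T.next e)
      else if h = T.opp e then -(T.vec (T.prev (T.opp e)) + T.vec (T.next e)) else T.vec h) =
      if h = e then A (T.vec (T.prev (T.opp e))) + A (T.vec (T.next e))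
      else if h = T.opp e then -(A (T.vec (T.prev (T.opp e))) + A (T.vec (T.next e))) else A (T.vec h)
    split_ifs <;> simp

theorem reach_act {E : Set H} {T T' : Tri H} (h : Reach E T T') (A : ℂ ≃ₗ[ℝ] ℂ)
    (hA : LinearMap.det (A : ℂ →ₗ[ℝ] ℂ) = 1) : Reach E (act T A hA) (act T' A hA) := by
  induction h with
  | refl => exact Reach.refl
  | flip e he hE hE' _ ih =>
    rw [act_flip]
    exact Reach.flip e _ hE hE' ih

theorem det_symm (A : ℂ ≃ₗ[ℝ] ℂ) (hA : LinearMap.det (A : ℂ →ₗ[ℝ] ℂ) = 1) :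
    LinearMap.det (A.symm : ℂ →ₗ[ℝ] ℂ) = 1 := by
  have h := LinearEquiv.det_symm_mul_det A
  rw [hA, mul_one] at h
  exact h

theorem act_act (T : Tri H) (A B : ℂ ≃ₗ[ℝ] ℂ) (hA : LinearMap.det (A : ℂ →ₗ[ℝ] ℂ) = 1)
    (hB : LinearMap.det (B : ℂ →ₗ[ℝ] ℂ) = 1) (C : ℂ ≃ₗ[ℝ] ℂ) (hC : LinearMap.det (C : ℂ →ₗ[ℝ] ℂ) = 1)
    (h : ∀ z, C z = B (A z)) : act (act T A hA) B hB = act T C hC := by
  apply tri_ext
  · rfl
  · rfl
  · funext x
    exact (h _).symm

theorem act_symm_act (T : Tri H) (A : ℂ ≃ₗ[ℝ] ℂ) (hA : LinearMap.det (A : ℂ →ₗ[ℝ] ℂ) = 1) :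
    act (act T A hA) A.symm (det_symm A hA) = T := by
  apply tri_ext
  · rfl
  · rfl
  · funext x
    exact A.symm_apply_apply _

theorem reach_act' {E : Set H} {T T' : Tri H} (A : ℂ ≃ₗ[ℝ] ℂ) (hA : LinearMap.det (A : ℂ →ₗ[ℝ] ℂ) = 1)
    (h : Reach E (act T A hA) T') : ∃ T'', Reach E T T'' ∧ T' = act T'' A hA := by
  refine ⟨act T' A.symm (det_symm A hA), ?_, ?_⟩
  · have h1 := reach_act h A.symm (det_symm A hA)
    rwa [act_symm_act] at h1
  · apply tri_ext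
    · rfl
    · rfl
    · funext x
      exact (A.apply_symm_apply _).symm

/-! ### Saddle connections and the systole -/

/-- The vectors of the saddle connections (edges of reachable triangulations). -/
def Sadv (T : Tri H) : Set ℂ := {v | ∃ T' g, Reach ∅ T T' ∧ T'.vec g = v}

theorem Sadv_act (T : Tri H) (A : ℂ ≃ₗ[ℝ] ℂ) (hA : LinearMap.det (A : ℂ →ₗ[ℝ] ℂ) = 1) :
    Sadv (act T A hA) = A '' Sadv T := by
  ext v
  constructor
  · rintro ⟨T', g, h, rfl⟩
    obtain ⟨T'', h1, rfl⟩ := reach_act' A hA h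
    exact ⟨T''.vec g, ⟨T'', g, h1, rfl⟩, rfl⟩
  · rintro ⟨_, ⟨T', g, h, rfl⟩, rfl⟩
    exact ⟨act T' A hA, g, reach_act h A hA, rfl⟩

/-- The length of the shortest saddle connection. -/
noncomputable def sys (T : Tri H) : ℝ := sInf ((fun v => ‖v‖) '' Sadv T)

theorem sys_nonneg (T : Tri H) : 0 ≤ sys T := by
  apply Real.sInf_nonneg
  rintro _ ⟨v, _, rfl⟩
  exact norm_nonneg v

theorem bdd (T : Tri H) : BddBelow ((fun v => ‖v‖) '' Sadv T) :=
  ⟨0, by rintro _ ⟨v, _, rfl⟩; exact norm_nonneg v⟩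

theorem Sadv_nonempty [Nonempty H] (T : Tri H) : (Sadv T).Nonempty := by
  obtain ⟨h⟩ := ‹Nonempty H›
  exact ⟨T.vec h, T, h, Reach.refl, rfl⟩

theorem sys_le {T T' : Tri H} (h : Reach ∅ T T') (g : H) : sys T ≤ ‖T'.vec g‖ :=
  csInf_le (bdd T) ⟨_, ⟨T', g, h, rfl⟩, rfl⟩

theorem le_sys [Nonempty H] {T : Tri H} {c : ℝ} (h : ∀ T' g, Reach ∅ T T' → c ≤ ‖T'.vec g‖) : c ≤ sys T := by
  apply le_csInf ((Sadv_nonempty T).image _)
  rintro _ ⟨_, ⟨T', g, h1, rfl⟩, rfl⟩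
  exact h T' g h1

theorem sys_lt_iff [Nonempty H] {T : Tri H} {c : ℝ} : sys T < c ↔ ∃ T' g, Reach ∅ T T' ∧ ‖T'.vec g‖ < c := by
  unfold sys
  rw [csInf_lt_iff (bdd T) ((Sadv_nonempty T).image _)]
  constructor
  · rintro ⟨_, ⟨_, ⟨T', g, h1, rfl⟩, rfl⟩, h2⟩
    exact ⟨T', g, h1, h2⟩
  · rintro ⟨T', g, h1, h2⟩
    exact ⟨_, ⟨_, ⟨T', g, h1, rfl⟩, rfl⟩, h2⟩

/-- Comparison of systoles of two images. -/
theorem sys_act_le [Nonempty H] (T : Tri H) (A B : ℂ ≃ₗ[ℝ] ℂ) (hA : LinearMap.det (A : ℂ →ₗ[ℝ] ℂ) = 1)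
    (hB : LinearMap.det (B : ℂ →ₗ[ℝ] ℂ) = 1) {c : ℝ} (hc : 0 ≤ c) (h : ∀ z, c * ‖A z‖ ≤ ‖B z‖) :
    c * sys (act T A hA) ≤ sys (act T B hB) := by
  apply le_sys
  intro T' g h1
  obtain ⟨T'', h2, rfl⟩ := reach_act' B hB h1
  exact (mul_le_mul_of_nonneg_left (sys_le (reach_act h2 A hA) g) hc).trans (h _)

/-! ### The maps `g_{s,u}` -/

theorem gsu_add (s u t w : ℝ) (z : ℂ) : gsu (s + t) (u + Real.exp (-(2 * s)) * w) z = gsu t w (gsu s u z) := by
  have h1 : Real.exp s * Real.exp (-(2 * s)) = Real.exp (-s) := by rw [← Real.exp_add]; congr 1; ring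
  apply Complex.ext
  · simp only [gsu_re, gsu_im]
    rw [Real.exp_add, ← h1]; ring
  · simp only [gsu_im]
    rw [neg_add, Real.exp_add]; ring

theorem lev_lev (T : Tri H) (s u t w : ℝ) : lev (lev T s u) t w = lev T (s + t) (u + Real.exp (-(2 * s)) * w) :=
  act_act T _ _ _ _ _ _ (gsu_add s u t w)

theorem norm_sq_eq (z : ℂ) : ‖z‖ ^ 2 = z.re ^ 2 + z.im ^ 2 := by
  rw [← Complex.normSq_eq_norm_sq, Complex.normSq_apply]; ring

theorem norm_le_of_sq {z w : ℂ} {c : ℝ} (hc : 0 ≤ c) (h : z.re ^ 2 + z.im ^ 2 ≤ c ^ 2 * (w.re ^ 2 + w.im ^ 2)) :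
    ‖z‖ ≤ c * ‖w‖ := by
  apply le_of_sq_le_sq _ (by positivity)
  rw [mul_pow, norm_sq_eq, norm_sq_eq]
  exact h

theorem gsu_down (s u t : ℝ) (ht : 0 ≤ t) (z : ℂ) : Real.exp (-t) * ‖gsu s u z‖ ≤ ‖gsu (s + t) u z‖ := by
  have h0 := gsu_add s u t 0 z
  rw [mul_zero, add_zero] at h0
  rw [h0]
  set y := gsu s u z
  have h1 : ‖y‖ ≤ Real.exp t * ‖gsu t 0 y‖ := by
    apply norm_le_of_sq (Real.exp_pos _).le
    simp only [gsu_re, gsu_im]
    have h2 : Real.exp t * Real.exp (-t) = 1 := by rw [← Real.exp_add]; simp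
    have h3 : 1 ≤ Real.exp t := Real.one_le_exp ht
    have h4 : Real.exp t ^ 2 * ((Real.exp t * (y.re - 0 * y.im)) ^ 2 + (Real.exp (-t) * y.im) ^ 2)
        = (Real.exp t ^ 2) ^ 2 * y.re ^ 2 + y.im ^ 2 := by
      linear_combination y.im ^ 2 * (Real.exp t * Real.exp (-t) + 1) * h2
    rw [h4]
    have h5 : (1 : ℝ) ≤ (Real.exp t ^ 2) ^ 2 := one_le_pow₀ (one_le_pow₀ h3)
    nlinarith [sq_nonneg y.re]
  rw [Real.exp_neg, ← div_eq_inv_mul, div_le_iff₀ (Real.exp_pos _)]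
  linarith

theorem gsu_near (s u u₀ : ℝ) (h : |u - u₀| ≤ Real.exp (-(2 * s))) (z : ℂ) : 1 / 2 * ‖gsu s u z‖ ≤ ‖gsu s u₀ z‖ := by
  have h1 : ‖gsu s u z‖ ≤ 2 * ‖gsu s u₀ z‖ := by
    apply norm_le_of_sq (by norm_num)
    simp only [gsu_re, gsu_im]
    set p := Real.exp s
    set q := Real.exp (-s)
    have hpq : p * q = 1 := by rw [← Real.exp_add]; simp
    have hq : Real.exp (-(2 * s)) = q * q := by rw [← Real.exp_add]; congr 1; ring
    rw [hq, abs_le] at h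
    set d := u - u₀ with hd
    have hp : 0 < p := Real.exp_pos _
    -- `p (re - u im) = X - p d im`
    set X := p * (z.re - u₀ * z.im) with hX
    set Y := q * z.im with hY
    have e1 : p * (z.re - u * z.im) = X - (p * p * d) * Y := by
      rw [hX, hY, hd]
      linear_combination (p * (u - u₀) * z.im) * (hpq)
    have e2 : |p * p * d| ≤ 1 := by
      rw [abs_le]
      have hpp : 0 < p * p := by positivity
      have e3 : p * p * (q * q) = 1 := by
        have : p * p * (q * q) = (p * q) * (p * q) := by ring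
        rw [this, hpq]; norm_num
      constructor
      · have := mul_le_mul_of_nonneg_left h.1 hpp.le
        linarith
      · have := mul_le_mul_of_nonneg_left h.2 hpp.le
        linarith
    rw [e1]
    set k := p * p * d
    have hk : k ^ 2 ≤ 1 := by rw [← sq_abs]; exact pow_le_one₀ (abs_nonneg _) e2
    have hk' := abs_le.1 e2
    nlinarith [sq_nonneg (X + k * Y), sq_nonneg X, sq_nonneg Y, mul_nonneg (sq_nonneg Y) (sub_nonneg.2 hk)]
  linarith

/-- The systole of the levels. -/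
noncomputable def ell (T : Tri H) (s u : ℝ) : ℝ := sys (lev T s u)

theorem ell_lt_iff [Nonempty H] {T : Tri H} {s u c : ℝ} :
    ell T s u < c ↔ ∃ T' g, Reach ∅ T T' ∧ ‖gsu s u (T'.vec g)‖ < c := by
  unfold ell
  rw [sys_lt_iff]
  constructor
  · rintro ⟨T', g, h1, h2⟩
    obtain ⟨T'', h3, rfl⟩ := reach_act' _ _ h1
    exact ⟨T'', g, h3, h2⟩
  · rintro ⟨T', g, h1, h2⟩
    exact ⟨_, g, reach_act h1 _ _, h2⟩

theorem measurable_ell [Nonempty H] (T : Tri H) (s : ℝ) : Measurable (ell T s) := by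
  apply measurable_of_Iio
  intro c
  have h1 : ell T s ⁻¹' Iio c = ⋃ p : {v : ℂ // ∃ T' g, Reach ∅ T T' ∧ T'.vec g = v},
      {u | ‖gsu s u p.1‖ < c} := by
    ext u
    simp only [mem_preimage, mem_Iio, ell_lt_iff, mem_iUnion, mem_ofPred_eq, Subtype.exists, exists_prop]
    constructor
    · rintro ⟨T', g, h1, h2⟩
      exact ⟨_, ⟨T', g, h1, rfl⟩, h2⟩
    · rintro ⟨_, ⟨T', g, h1, rfl⟩, h2⟩
      exact ⟨T', g, h1, h2⟩
  rw [h1]
  apply IsOpen.measurableSet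
  apply isOpen_iUnion
  intro p
  apply isOpen_lt _ continuous_const
  apply Continuous.norm
  have h2 : (fun u : ℝ => gsu s u p.1) = fun u : ℝ =>
      ((Real.exp s * (p.1.re - u * p.1.im) : ℝ) : ℂ) + ((Real.exp (-s) * p.1.im : ℝ) : ℂ) * Complex.I := by
    funext u
    apply Complex.ext
    · rw [gsu_re, Complex.add_re, Complex.ofReal_re, Complex.re_ofReal_mul, Complex.I_re]; ring
    · rw [gsu_im, Complex.add_im, Complex.ofReal_im, Complex.im_ofReal_mul, Complex.I_im]; ring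
  rw [h2]
  fun_prop

theorem act_one (T : Tri H) (A : ℂ ≃ₗ[ℝ] ℂ) (hA : LinearMap.det (A : ℂ →ₗ[ℝ] ℂ) = 1) (h : ∀ z, A z = z) :
    act T A hA = T := by
  apply tri_ext
  · rfl
  · rfl
  · funext x
    exact h _

theorem gsu_lower (s u : ℝ) : ∃ c : ℝ, 0 < c ∧ ∀ z, c * ‖z‖ ≤ ‖gsu s u z‖ := by
  set K := Real.exp (-s) + |u| * Real.exp s + Real.exp s with hK
  have hK0 : 0 < K := by positivity
  refine ⟨1 / K, by positivity, fun z => ?_⟩
  rw [one_div, inv_mul_le_iff₀ hK0]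
  have h1 : Real.exp (-s) * Real.exp s = 1 := by rw [← Real.exp_add]; simp
  set y := gsu s u z with hy
  have e1 : z.im = Real.exp s * y.im := by
    rw [hy, gsu_im]; linear_combination (-z.im) * h1
  have e2 : z.re = Real.exp (-s) * y.re + u * (Real.exp s * y.im) := by
    rw [← e1, hy, gsu_re]; linear_combination (-(z.re - u * z.im)) * h1
  have n1 := Complex.abs_re_le_norm y
  have n2 := Complex.abs_im_le_norm y
  calc ‖z‖ ≤ |z.re| + |z.im| := Complex.norm_le_abs_re_add_abs_im z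
    _ ≤ (Real.exp (-s) * |y.re| + |u| * (Real.exp s * |y.im|)) + Real.exp s * |y.im| := by
        rw [e1, e2]
        refine add_le_add ((abs_add_le _ _).trans ?_) ?_
        · rw [abs_mul, abs_mul, abs_mul, abs_of_pos (Real.exp_pos _), abs_of_pos (Real.exp_pos _)]
        · rw [abs_mul, abs_of_pos (Real.exp_pos _)]
    _ ≤ (Real.exp (-s) * ‖y‖ + |u| * (Real.exp s * ‖y‖)) + Real.exp s * ‖y‖ := by gcongr
    _ = K * ‖y‖ := by rw [hK]; ring

theorem conn_act {T : Tri H} (h : T.Conn) (A : ℂ ≃ₗ[ℝ] ℂ) (hA : LinearMap.det (A : ℂ →ₗ[ℝ] ℂ) = 1) :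
    (act T A hA).Conn := h

theorem area_act [Fintype H] (T : Tri H) (A : ℂ ≃ₗ[ℝ] ℂ) (hA : LinearMap.det (A : ℂ →ₗ[ℝ] ℂ) = 1) :
    (act T A hA).area = T.area := by
  unfold Tri.area act
  simp only [cr_map, hA, one_mul]

/-- The data for the large deviation estimate. `P` is any property of surfaces which is kept by the
linear maps. -/
theorem ellData [Nonempty H] (P : Tri H → Prop)
    (hP : ∀ (T : Tri H), P T → ∀ (A : ℂ ≃ₗ[ℝ] ℂ) (hA : LinearMap.det (A : ℂ →ₗ[ℝ] ℂ) = 1), P (act T A hA))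
    {C α ρ : ℝ} (hC : 0 < C) (hα : 0 < α) (hρ : 0 < ρ)
    (hkms : ∀ Y : Tri H, P Y → ∀ t r : ℝ, 0 ≤ t → 0 < r →
      volume {w : ℝ | |w| ≤ 1 ∧ sys (lev Y t w) ≤ r} ≤ ENNReal.ofReal (C * (r / min ρ (sys Y * Real.exp t)) ^ α))
    (T : Tri H) (hT : P T) (hpos : 0 < sys T) : EllData (ell T) C α ρ where
  C_pos := hC
  α_pos := hα
  ρ_pos := hρ
  pos s u := by
    obtain ⟨c, hc, h⟩ := gsu_lower s u
    have h1 := sys_act_le T (LinearEquiv.refl ℝ ℂ) (gsu s u) (by simp) (det_gsu s u) hc.le h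
    rw [act_one T _ _ (fun _ => rfl)] at h1
    exact lt_of_lt_of_le (by positivity) h1
  meas := measurable_ell T
  down s u t ht := sys_act_le T _ _ _ _ (Real.exp_pos _).le (gsu_down s u t ht)
  near s u u₀ h := by
    have := sys_act_le T _ _ (det_gsu s u) (det_gsu s u₀) (by norm_num : (0 : ℝ) ≤ 1 / 2) (gsu_near s u u₀ h)
    change sys (act T (gsu s u) _) ≤ 2 * sys (act T (gsu s u₀) _)
    linarith
  kms s u₀ t r ht hr := by
    have h1 := hkms (lev T s u₀) (hP T hT _ _) t r ht hr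
    set q := Real.exp (-(2 * s)) with hq
    have hq0 : 0 < q := Real.exp_pos _
    have h2 : {u | |u - u₀| ≤ q ∧ ell T (s + t) u ≤ r} =
        (fun u => u₀ + u) '' ((fun w => q * w) '' {w : ℝ | |w| ≤ 1 ∧ sys (lev (lev T s u₀) t w) ≤ r}) := by
      ext u
      simp only [mem_ofPred_eq, mem_image, exists_exists_and_eq_and]
      constructor
      · rintro ⟨h3, h4⟩
        refine ⟨(u - u₀) / q, ⟨?_, ?_⟩, ?_⟩
        · rw [abs_div, abs_of_pos hq0, div_le_one hq0]; exact h3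
        · rw [lev_lev, ← hq, mul_div_cancel₀ _ hq0.ne', add_sub_cancel]; exact h4
        · rw [mul_div_cancel₀ _ hq0.ne', add_sub_cancel]
      · rintro ⟨w, ⟨h3, h4⟩, rfl⟩
        rw [lev_lev, ← hq] at h4
        refine ⟨?_, h4⟩
        rw [add_sub_cancel_left, abs_mul, abs_of_pos hq0]
        nlinarith
    rw [h2, image_add_left, measure_preimage_add]
    have h3 : (fun w => q * w) '' {w : ℝ | |w| ≤ 1 ∧ sys (lev (lev T s u₀) t w) ≤ r}
        = q • {w : ℝ | |w| ≤ 1 ∧ sys (lev (lev T s u₀) t w) ≤ r} := rfl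
    rw [h3, Measure.addHaar_smul]
    simp only [Module.finrank_self, pow_one, abs_of_pos hq0]
    refine (mul_le_mul_right h1 _).trans (le_of_eq ?_)
    rw [← ENNReal.ofReal_mul hq0.le]
    congr 1
    change q * (C * (r / min ρ (ell T s u₀ * Real.exp t)) ^ α) = _
    ring

end Pool.Agent.Helper86.TF
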