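import Pool.Agent.Helper86.TF.Ell

/-!
MP_e98778_an FULL, module G, G9, part 5: TAIL and LD (statements of Helper72/TF/Skel.lean) from
* (kms) the power bound for the systole (G8),
* (pos) positivity of the systole (G2),
* (tame) a surface with large systole is tame (G5, G6, BASE).
-/

open MeasureTheory Set Pool.Agent.Helper72.TF Pool.Agent.Helper79.G Pool.Agent.Helper87.LS

namespace Pool.Agent.Helper86.TF

theorem TameAt_mono {S : Surf} {K K' s u : ℝ} (hK : 0 < K) (h : K ≤ K') (hT : TameAt S K s u) : TameAt S K' s u := by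
  obtain ⟨Y, h1, h2, h3, h4, h5⟩ := hT
  refine ⟨Y, h1, h2, fun e => (h3 e).trans h, fun i => le_trans ?_ (h4 i), h5⟩
  exact one_div_le_one_div_of_le hK h

/-- The three inputs. -/
structure Inputs (S : Surf) : Prop where
  kms : ∃ C α ρ : ℝ, 0 < C ∧ 0 < α ∧ 0 < ρ ∧ ∀ Y : Tri (Fin S.n × Fin 3), Y.Conn → Y.area = (ofSurf S).area →
    ∀ t r : ℝ, 0 ≤ t → 0 < r →
      volume {w : ℝ | |w| ≤ 1 ∧ sys (lev Y t w) ≤ r} ≤ ENNReal.ofReal (C * (r / min ρ (sys Y * Real.exp t)) ^ α)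
  pos : 0 < sys (ofSurf S)
  tame : ∃ c p : ℝ, 0 < c ∧ 0 < p ∧ ∀ s u κ : ℝ, 0 < κ → κ ≤ 1 → κ ≤ sys (lev (ofSurf S) s u) →
    TameAt S (c * κ ^ (-p)) s u

variable {S : Surf}

theorem Inputs.data (I : Inputs S) (hS : Connected S) [Nonempty (Fin S.n × Fin 3)] :
    ∃ C α ρ : ℝ, EllData (ell (ofSurf S)) C α ρ := by
  obtain ⟨C, α, ρ, hC, hα, hρ, h⟩ := I.kms
  refine ⟨C, α, ρ, ellData (fun Y => Y.Conn ∧ Y.area = (ofSurf S).area) ?_ hC hα hρ
    (fun Y hY => h Y hY.1 hY.2) (ofSurf S) ⟨hS, rfl⟩ I.pos⟩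
  intro T hT A hA
  exact ⟨conn_act hT.1 A hA, (area_act T A hA).trans hT.2⟩

/-- The third input: a surface with large systole is tame. -/
def TameIn (S : Surf) : Prop :=
  ∃ c p : ℝ, 0 < c ∧ 0 < p ∧ ∀ s u κ : ℝ, 0 < κ → κ ≤ 1 → κ ≤ sys (lev (ofSurf S) s u) →
    TameAt S (c * κ ^ (-p)) s u

/-- TAIL. -/
theorem tail_of_data {C α ρ : ℝ} (D : EllData (ell (ofSurf S)) C α ρ) (hT : TameIn S) :
    ∃ C β : ℝ, 0 < C ∧ 0 < β ∧ ∀ a b : ℝ, a < b → ∃ s₀ : ℝ, ∀ s K : ℝ, s₀ ≤ s → 1 ≤ K →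
      volume ({u | ¬ TameAt S K s u} ∩ Icc a b) ≤ ENNReal.ofReal (C * K ^ (-β) * (b - a)) := by
  obtain ⟨c, p, hc, hp, ht⟩ := hT
  have hα := D.α_pos
  have hC := D.C_pos
  have hρ := D.ρ_pos
  set C1 := (2 + C) * ρ ^ (-(α / 2)) with hC1
  have hρβ : 0 < ρ ^ (-(α / 2)) := Real.rpow_pos_of_pos hρ _
  have hC10 : 0 < C1 := by positivity
  set β := α / 2 / p with hβ
  have hβ0 : 0 < β := by positivity
  refine ⟨(C1 + 1) * c ^ β, β, by positivity, hβ0, fun a b hab => ?_⟩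
  obtain ⟨s₀, hs₀⟩ := D.tail a b hab
  refine ⟨s₀, fun s K hs hK => ?_⟩
  have hK0 : 0 < K := by linarith
  have hba : 0 < b - a := by linarith
  have hcK : c ^ β * K ^ (-β) = (c / K) ^ β := by
    rw [Real.div_rpow hc.le hK0.le, Real.rpow_neg hK0.le]; rfl
  have hcK0 : 0 < (c / K) ^ β := by positivity
  by_cases h1 : c ≤ K
  · set κ := (c / K) ^ (1 / p) with hκ
    have hκ0 : 0 < κ := by positivity
    have hκ1 : κ ≤ 1 := by
      apply Real.rpow_le_one (by positivity) _ (by positivity)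
      rw [div_le_one hK0]; exact h1
    have hκp : c * κ ^ (-p) = K := by
      rw [hκ, ← Real.rpow_mul (by positivity), show 1 / p * -p = -1 by field_simp, Real.rpow_neg_one, inv_div]
      field_simp
    have hsub : {u | ¬ TameAt S K s u} ∩ Icc a b ⊆ {u | ell (ofSurf S) s u ≤ κ} ∩ Icc a b := by
      rintro u ⟨hu, hu'⟩
      refine ⟨?_, hu'⟩
      by_contra hcon
      rw [mem_ofPred_eq, not_le] at hcon
      apply hu
      have := ht s u κ hκ0 hκ1 hcon.le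
      rwa [hκp] at this
    refine (measure_mono hsub).trans ((hs₀ s hs κ hκ0).trans (ENNReal.ofReal_le_ofReal ?_))
    have h2 : κ ^ (α / 2) = (c / K) ^ β := by
      rw [hκ, ← Real.rpow_mul (by positivity)]; congr 1; rw [hβ]; field_simp
    calc (2 + C) * ρ ^ (-(α / 2)) * κ ^ (α / 2) * (b - a) = C1 * (c / K) ^ β * (b - a) := by rw [h2]
      _ ≤ (C1 + 1) * (c / K) ^ β * (b - a) := by gcongr; linarith
      _ = _ := by rw [← hcK]; ring
  · push Not at h1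
    refine (measure_mono inter_subset_right).trans ?_
    rw [Real.volume_Icc]
    apply ENNReal.ofReal_le_ofReal
    have h2 : 1 ≤ (c / K) ^ β := Real.one_le_rpow (by rw [le_div_iff₀ hK0]; linarith) hβ0.le
    calc b - a ≤ 1 * (b - a) := by rw [one_mul]
      _ ≤ ((C1 + 1) * (c / K) ^ β) * (b - a) := by gcongr; nlinarith
      _ = _ := by rw [← hcK]; ring

/-- LD. -/
theorem ld_of_data {C α ρ : ℝ} (D : EllData (ell (ofSurf S)) C α ρ) (hT : TameIn S) :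
    ∃ K ε₁ C c : ℝ, 1 ≤ K ∧ 0 < ε₁ ∧ 0 < C ∧ 0 < c ∧
    ∀ a b : ℝ, a < b → ∃ s₀ : ℝ, ∀ s : ℝ, s₀ ≤ s → ∀ N : ℕ,
      volume ({u | ({j : ℕ | j < N ∧ TameAt S K (s + j) u}.ncard : ℝ) < ε₁ * N} ∩ Icc a b) ≤
        ENNReal.ofReal (C * Real.exp (-(c * N)) * (b - a)) := by
  classical
  obtain ⟨c, p, hc, hp, ht⟩ := hT
  obtain ⟨κ, ε, c', K', hκ, hε, hc', hK', hld⟩ := ld_ell C α ρ D.C_pos D.α_pos D.ρ_pos
  set κ' := min κ 1 with hκ'
  have hκ'0 : 0 < κ' := lt_min hκ one_pos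
  refine ⟨max 1 (c * κ' ^ (-p)), ε, K', c', le_max_left _ _, hε, hK', hc', fun a b hab => ?_⟩
  obtain ⟨s₀, hs₀⟩ := hld _ D a b hab
  refine ⟨s₀, fun s hs N => ?_⟩
  refine le_trans (measure_mono (inter_subset_inter_left _ ?_)) (hs₀ s hs N)
  intro u hu
  rw [mem_ofPred_eq] at hu ⊢
  refine lt_of_le_of_lt ?_ hu
  have h1 : Pool.Agent.TFL.Sys.tameCount (fun s => {u | κ ≤ ell (ofSurf S) s u}) s N u
      ≤ {j : ℕ | j < N ∧ TameAt S (max 1 (c * κ' ^ (-p))) (s + j) u}.ncard := by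
    unfold Pool.Agent.TFL.Sys.tameCount
    rw [← Set.ncard_coe_finset]
    apply Set.ncard_le_ncard
    · intro j hj
      rw [Finset.coe_filter, mem_ofPred_eq, Finset.mem_range, mem_ofPred_eq] at hj
      refine ⟨hj.1, ?_⟩
      have h2 := ht (s + j) u κ' hκ'0 (min_le_right _ _) ((min_le_left _ _).trans hj.2)
      exact TameAt_mono (by positivity) (le_max_right _ _) h2
    · exact (Set.finite_lt_nat N).subset fun j hj => hj.1
  exact_mod_cast h1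

theorem tail_of_inputs (I : Inputs S) (hS : Connected S) [Nonempty (Fin S.n × Fin 3)] :
    ∃ C β : ℝ, 0 < C ∧ 0 < β ∧ ∀ a b : ℝ, a < b → ∃ s₀ : ℝ, ∀ s K : ℝ, s₀ ≤ s → 1 ≤ K →
      volume ({u | ¬ TameAt S K s u} ∩ Icc a b) ≤ ENNReal.ofReal (C * K ^ (-β) * (b - a)) := by
  obtain ⟨C, α, ρ, D⟩ := I.data hS
  exact tail_of_data D I.tame

theorem ld_of_inputs (I : Inputs S) (hS : Connected S) [Nonempty (Fin S.n × Fin 3)] :
    ∃ K ε₁ C c : ℝ, 1 ≤ K ∧ 0 < ε₁ ∧ 0 < C ∧ 0 < c ∧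
    ∀ a b : ℝ, a < b → ∃ s₀ : ℝ, ∀ s : ℝ, s₀ ≤ s → ∀ N : ℕ,
      volume ({u | ({j : ℕ | j < N ∧ TameAt S K (s + j) u}.ncard : ℝ) < ε₁ * N} ∩ Icc a b) ≤
        ENNReal.ofReal (C * Real.exp (-(c * N)) * (b - a)) := by
  obtain ⟨C, α, ρ, D⟩ := I.data hS
  exact ld_of_data D I.tame

end Pool.Agent.Helper86.TF
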