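import Pool.Agent.Helper86.TF.Assem
import Pool.Agent.Helper79.K.Main

/-!
MP_e98778_an FULL, module G: from helper79's `SSys` (saddle connections with their crossing relation,
`K/Defs.lean`) and `kms` (`K/Main.lean`) to `EllData` for the systole; TAIL and LD.
-/

open MeasureTheory Set Pool.Agent.Helper72.TF Pool.Agent.Helper79.G Pool.Agent.Helper87.LS

namespace Pool.Agent.Helper86.TF

variable {H : Type}

/-- The systole is positive. -/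
theorem sys_pos_of_ssys [Nonempty H] {T : Tri H} {S : Type} {N K : ℕ} {ρ₀ : ℝ} (Z : Pool.Agent.Helper79.K.SSys S N K ρ₀)
    (hZ : ∀ z, z ∈ Sadv T ↔ ∃ a, Z.vec a = z) : 0 < sys T := by
  obtain ⟨h0⟩ := ‹Nonempty H›
  set R := ‖T.vec h0‖ with hR
  have hR0 : 0 < R := norm_pos_iff.2 (T.vec_ne_zero h0)
  have hfin := Z.fin R
  -- the minimum over the finite set
  obtain ⟨c, hc, hmin⟩ : ∃ c > 0, ∀ z ∈ {z : ℂ | (∃ a, Z.vec a = z) ∧ ‖z‖ ≤ R}, c ≤ ‖z‖ := by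
    have hne : {z : ℂ | (∃ a, Z.vec a = z) ∧ ‖z‖ ≤ R}.Nonempty :=
      ⟨T.vec h0, (hZ _).1 ⟨T, h0, Reach.refl, rfl⟩, le_rfl⟩
    obtain ⟨z0, hz0, hmin⟩ := hfin.exists_minimalFor (fun z => ‖z‖) _ hne
    refine ⟨‖z0‖, ?_, ?_⟩
    · obtain ⟨⟨a, rfl⟩, _⟩ := hz0
      exact norm_pos_iff.2 (Z.ne0 a)
    · intro z hz
      rcases le_total ‖z0‖ ‖z‖ with h | h
      · exact h
      · exact hmin hz h
  refine lt_of_lt_of_le (lt_min hc hR0) (le_sys ?_)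
  intro T' g h1
  rcases le_total ‖T'.vec g‖ R with h | h
  · exact (min_le_left _ _).trans (hmin _ ⟨(hZ _).1 ⟨T', g, h1, rfl⟩, h⟩)
  · exact (min_le_right _ _).trans h

/-- The data for the large deviation estimate from the saddle connections. -/
theorem data_of_ssys [Nonempty H] {T : Tri H} {S : Type} {N K : ℕ} {ρ₀ : ℝ} (hK : 0 < K) (hρ : 0 < ρ₀)
    (Z : Pool.Agent.Helper79.K.SSys S N K ρ₀) (hZ : ∀ z, z ∈ Sadv T ↔ ∃ a, Z.vec a = z) :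
    ∃ C α ρ : ℝ, EllData (ell T) C α ρ := by
  obtain ⟨C, α, hC, hα, hkms⟩ := Pool.Agent.Helper79.K.kms N K hK ρ₀ hρ
  have hpos : 0 < sys T := sys_pos_of_ssys Z hZ
  have hlow : ∀ s u, 0 < ell T s u := by
    intro s u
    obtain ⟨c, hc, h⟩ := gsu_lower s u
    have h1 := sys_act_le T (LinearEquiv.refl ℝ ℂ) (gsu s u) (by simp) (det_gsu s u) hc.le h
    rw [act_one T _ _ (fun _ => rfl)] at h1
    exact lt_of_lt_of_le (by positivity) h1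
  have hle : ∀ s u a, ell T s u ≤ Pool.Agent.Helper79.K.len s u (Z.vec a) := by
    intro s u a
    obtain ⟨T', g, h1, h2⟩ := (hZ _).2 ⟨a, rfl⟩
    rw [← h2]
    exact sys_le (reach_act h1 _ (det_gsu s u)) g
  have h2α : (1 : ℝ) ≤ 2 ^ α := Real.one_le_rpow (by norm_num) hα.le
  refine ⟨C * 2 ^ α, α, ρ₀, by positivity, hα, hρ, hlow, measurable_ell T,
    fun s u t ht => sys_act_le T _ _ _ _ (Real.exp_pos _).le (gsu_down s u t ht), ?_, ?_⟩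
  · intro s u u₀ h
    have := sys_act_le T _ _ (det_gsu s u) (det_gsu s u₀) (by norm_num : (0 : ℝ) ≤ 1 / 2) (gsu_near s u u₀ h)
    change sys (act T (gsu s u) _) ≤ 2 * sys (act T (gsu s u₀) _)
    linarith
  · intro s u₀ t r ht hr
    have h1 := hkms S Z s u₀ t (ell T s u₀) ht (hlow s u₀) (hle s u₀) (2 * r) (by positivity)
    rw [show -2 * s = -(2 * s) by ring] at h1
    refine (measure_mono ?_).trans (h1.trans (ENNReal.ofReal_le_ofReal ?_))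
    · rintro u ⟨h2, h3⟩
      refine ⟨h2, ?_⟩
      have h4 : ell T (s + t) u < 2 * r := by linarith
      rw [ell_lt_iff] at h4
      obtain ⟨T', g, h5, h6⟩ := h4
      obtain ⟨a, ha⟩ := (hZ (T'.vec g)).1 ⟨T', g, h5, rfl⟩
      refine ⟨a, ?_⟩
      rw [ha]
      exact h6.le
    · have hm : 0 < min ρ₀ (ell T s u₀ * Real.exp t) := lt_min hρ (mul_pos (hlow _ _) (Real.exp_pos _))
      rw [mul_div_assoc, Real.mul_rpow (by norm_num) (by positivity)]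
      apply le_of_eq
      ring

/-- TAIL and LD from the saddle connections and (tame). -/
theorem tail_of_ssys {S : Surf} [Nonempty (Fin S.n × Fin 3)] {A : Type} {N K : ℕ} {ρ₀ : ℝ} (hK : 0 < K) (hρ : 0 < ρ₀)
    (Z : Pool.Agent.Helper79.K.SSys A N K ρ₀) (hZ : ∀ z, z ∈ Sadv (ofSurf S) ↔ ∃ a, Z.vec a = z) (hT : TameIn S) :
    ∃ C β : ℝ, 0 < C ∧ 0 < β ∧ ∀ a b : ℝ, a < b → ∃ s₀ : ℝ, ∀ s K : ℝ, s₀ ≤ s → 1 ≤ K →
      volume ({u | ¬ TameAt S K s u} ∩ Icc a b) ≤ ENNReal.ofReal (C * K ^ (-β) * (b - a)) := by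
  obtain ⟨C, α, ρ, D⟩ := data_of_ssys hK hρ Z hZ
  exact tail_of_data D hT

theorem ld_of_ssys {S : Surf} [Nonempty (Fin S.n × Fin 3)] {A : Type} {N K : ℕ} {ρ₀ : ℝ} (hK : 0 < K) (hρ : 0 < ρ₀)
    (Z : Pool.Agent.Helper79.K.SSys A N K ρ₀) (hZ : ∀ z, z ∈ Sadv (ofSurf S) ↔ ∃ a, Z.vec a = z) (hT : TameIn S) :
    ∃ K ε₁ C c : ℝ, 1 ≤ K ∧ 0 < ε₁ ∧ 0 < C ∧ 0 < c ∧
    ∀ a b : ℝ, a < b → ∃ s₀ : ℝ, ∀ s : ℝ, s₀ ≤ s → ∀ N : ℕ,
      volume ({u | ({j : ℕ | j < N ∧ TameAt S K (s + j) u}.ncard : ℝ) < ε₁ * N} ∩ Icc a b) ≤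
        ENNReal.ofReal (C * Real.exp (-(c * N)) * (b - a)) := by
  obtain ⟨C, α, ρ, D⟩ := data_of_ssys hK hρ Z hZ
  exact ld_of_data D hT

end Pool.Agent.Helper86.TF
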