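import Pool.Agent.Helper86.TF.Assem
import Pool.Agent.Helper58.TF.Tame
import Pool.Agent.Helper79.G.NonDiv
import Pool.Agent.Helper79.G.InsX

/-!
MP_e98778_an FULL, module G, G9, part 6: TAIL and LD (Helper72/TF/Skel.lean) from helper79's
nondivergence `kms_tri` and helper58's `pos_input`, `tame_input`.
-/

set_option autoImplicit false

open MeasureTheory Set Pool.Agent.Helper72.TF Pool.Agent.Helper79.G Pool.Agent.Helper87.LS

namespace Pool.Agent.Helper86.TF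

/-- The power bound for the systole. -/
theorem kms_of_ins {H : Type} [Fintype H] [Nonempty H] (hins : ∀ X : Type, InsertionX H X) (area : ℝ)
    (ha : 0 < area) : ∃ C α ρ : ℝ, 0 < C ∧ 0 < α ∧ 0 < ρ ∧ ∀ Y : Tri H, Y.Conn → Y.area = area →
    ∀ t r : ℝ, 0 ≤ t → 0 < r →
      volume {w : ℝ | |w| ≤ 1 ∧ sys (lev Y t w) ≤ r} ≤
        ENNReal.ofReal (C * (r / min ρ (sys Y * Real.exp t)) ^ α) := by
  obtain ⟨C, α, hC, hα, hk⟩ := kms_tri hins area ha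
  have hcard : (0 : ℝ) < Fintype.card H := by exact_mod_cast Fintype.card_pos
  have hρ : 0 < Real.sqrt (area / Fintype.card H) := Real.sqrt_pos.2 (div_pos ha hcard)
  refine ⟨C * 2 ^ α, α, Real.sqrt (area / Fintype.card H), by positivity, hα, hρ, ?_⟩
  intro Y hY hYa t r ht hr
  have hpos : 0 < sys Y := Pool.Agent.Helper58.TF.sys_pos Y
  have h0 : ∀ z : ℂ, gsu 0 0 z = z := by
    intro z
    apply Complex.ext
    · rw [gsu_re]; simp
    · rw [gsu_im]; simp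
  have h1 := hk Y hY hYa 0 0 t (sys Y) ht hpos (fun T' hT' g => by
    rw [h0]; exact sys_le hT' g) (2 * r) (by positivity)
  simp only [sub_zero, mul_zero, Real.exp_zero, mul_one, zero_add] at h1
  refine (measure_mono ?_).trans (h1.trans (ENNReal.ofReal_le_ofReal ?_))
  · rintro u ⟨h2, h3⟩
    refine ⟨h2, ?_⟩
    have h4 : ell Y t u < 2 * r := by unfold ell; linarith
    rw [ell_lt_iff] at h4
    obtain ⟨T', g, h5, h6⟩ := h4
    exact ⟨T', h5, g, h6.le⟩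
  · have hm : 0 < min (Real.sqrt (area / Fintype.card H)) (sys Y * Real.exp t) :=
      lt_min hρ (mul_pos hpos (Real.exp_pos _))
    rw [mul_div_assoc, Real.mul_rpow (by norm_num) (by positivity)]
    apply le_of_eq
    ring

theorem inputs_of_ins (S : Surf) (hS : Connected S)
    (hins : ∀ X : Type, InsertionX (Fin S.n × Fin 3) X) : Inputs S where
  kms := by
    have : Nonempty (Fin S.n × Fin 3) := ⟨(⟨0, S.pos⟩, 0)⟩
    exact kms_of_ins hins _ (Pool.Agent.Helper79.G.area_pos (ofSurf S))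
  pos := Pool.Agent.Helper58.TF.pos_input S
  tame := Pool.Agent.Helper58.TF.tame_input S hS

/-- TAIL. -/
theorem tail_of_ins (S : Surf) (hS : Connected S)
    (hins : ∀ X : Type, InsertionX (Fin S.n × Fin 3) X) :
    ∃ C β : ℝ, 0 < C ∧ 0 < β ∧ ∀ a b : ℝ, a < b → ∃ s₀ : ℝ, ∀ s K : ℝ, s₀ ≤ s → 1 ≤ K →
      volume ({u | ¬ TameAt S K s u} ∩ Icc a b) ≤ ENNReal.ofReal (C * K ^ (-β) * (b - a)) := by
  have : Nonempty (Fin S.n × Fin 3) := ⟨(⟨0, S.pos⟩, 0)⟩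
  exact tail_of_inputs (inputs_of_ins S hS hins) hS

/-- LD. -/
theorem ld_of_ins (S : Surf) (hS : Connected S)
    (hins : ∀ X : Type, InsertionX (Fin S.n × Fin 3) X) :
    ∃ K ε₁ C c : ℝ, 1 ≤ K ∧ 0 < ε₁ ∧ 0 < C ∧ 0 < c ∧
    ∀ a b : ℝ, a < b → ∃ s₀ : ℝ, ∀ s : ℝ, s₀ ≤ s → ∀ N : ℕ,
      volume ({u | ({j : ℕ | j < N ∧ TameAt S K (s + j) u}.ncard : ℝ) < ε₁ * N} ∩ Icc a b) ≤
        ENNReal.ofReal (C * Real.exp (-(c * N)) * (b - a)) := by
  have : Nonempty (Fin S.n × Fin 3) := ⟨(⟨0, S.pos⟩, 0)⟩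
  exact ld_of_inputs (inputs_of_ins S hS hins) hS

/-- TAIL, as in Skel.lean. -/
theorem tail (S : Surf) (hS : Connected S) : ∃ C β : ℝ, 0 < C ∧ 0 < β ∧ ∀ a b : ℝ, a < b →
    ∃ s₀ : ℝ, ∀ s K : ℝ, s₀ ≤ s → 1 ≤ K →
      volume ({u | ¬ TameAt S K s u} ∩ Icc a b) ≤ ENNReal.ofReal (C * K ^ (-β) * (b - a)) :=
  tail_of_ins S hS fun X => insertionX _ X

/-- LD, as in Skel.lean. -/
theorem ld (S : Surf) (hS : Connected S) : ∃ K ε₁ C c : ℝ, 1 ≤ K ∧ 0 < ε₁ ∧ 0 < C ∧ 0 < c ∧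
    ∀ a b : ℝ, a < b → ∃ s₀ : ℝ, ∀ s : ℝ, s₀ ≤ s → ∀ N : ℕ,
      volume ({u | ({j : ℕ | j < N ∧ TameAt S K (s + j) u}.ncard : ℝ) < ε₁ * N} ∩ Icc a b) ≤
        ENNReal.ofReal (C * Real.exp (-(c * N)) * (b - a)) :=
  ld_of_ins S hS fun X => insertionX _ X

end Pool.Agent.Helper86.TF
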