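import Pool.Agent.Helper86.TF.Assem
import Pool.Agent.Helper25.TF.KMSFinal

/-!
MP_e98778_an FULL, module G: from the abstract estimate (G8, Helper25/TF/KMSFinal.lean) and a system of
saddle connections with a crossing relation to the field `kms` of `Inputs`.
-/

open MeasureTheory Set Pool.Agent.Helper72.TF Pool.Agent.Helper79.G Pool.Agent.Helper87.LS

namespace Pool.Agent.Helper86.TF

variable {H : Type}

/-- What is used of the saddle connections of `T`. -/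
structure SadSys (T : Tri H) (S : Type) (N n : ℕ) (Λ ρ₀ : ℝ) where
  v : S → ℂ
  X : S → S → Prop
  sym : ∀ s s', X s s' → X s' s
  irr : ∀ s, ¬ X s s
  clique : ∀ F : Finset S, (∀ s ∈ F, ∀ s' ∈ F, ¬ X s s') → F.card ≤ N
  fin : ∀ R : ℝ, {s | ‖v s‖ ≤ R}.Finite
  vecs : ∀ z, z ∈ Sadv T ↔ ∃ s, v s = z
  unc : ∀ A : ℂ ≃ₗ[ℝ] ℂ, LinearMap.det (A : ℂ →ₗ[ℝ] ℂ) = 1 → ∀ r l : ℝ, 0 < r → Λ ≤ l → r * l ^ n ≤ ρ₀ →
    (∃ s, ‖A (v s)‖ ≤ r) →
      ∃ k < n, ∃ d, ‖A (v d)‖ ≤ r * l ^ k ∧ ∀ s, X s d → r * l ^ (k + 1) / 4 < ‖A (v s)‖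

theorem lenW_eq (t w : ℝ) (z : ℂ) : Pool.Agent.Helper25.TF.lenW t z.re z.im w = ‖gsu t w z‖ := by
  unfold Pool.Agent.Helper25.TF.lenW
  rw [← gsu_re, ← gsu_im t w, ← norm_sq_eq, Real.sqrt_sq (norm_nonneg _)]

theorem kms_of_sadSys [Nonempty H] {T : Tri H} {S : Type} {N n : ℕ} {Λ ρ₀ : ℝ} (D : SadSys T S N n Λ ρ₀) (hn : 0 < n)
    (hΛ : 0 ≤ Λ) (hρ₀ : 0 < ρ₀) (hT : 0 < sys T) (t r : ℝ) (_ht : 0 ≤ t) (hr : 0 < r) :
    volume {w : ℝ | |w| ≤ 1 ∧ sys (lev T t w) ≤ r} ≤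
      ENNReal.ofReal (4 * Pool.Agent.Helper25.TF.Ckms 8 N n Λ * (r / min ρ₀ (sys T * Real.exp t)) ^ (1 / (2 * (n : ℝ)))) := by
  set ρ := min ρ₀ (sys T * Real.exp t) with hρ
  have hρ0 : 0 < ρ := lt_min hρ₀ (mul_pos hT (Real.exp_pos _))
  have hn' : (1 : ℝ) ≤ n := by exact_mod_cast hn
  set α : ℝ := 1 / (2 * (n : ℝ)) with hα
  have hα0 : 0 < α := by positivity
  have hα1 : α ≤ 1 := by
    rw [hα, div_le_one (by positivity)]; linarith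
  set f : S → ℝ → ℝ := fun s => Pool.Agent.Helper25.TF.lenW t (D.v s).re (D.v s).im with hf
  have hfv : ∀ s w, f s w = ‖gsu t w (D.v s)‖ := fun s w => lenW_eq t w (D.v s)
  have hLF : Pool.Agent.Helper25.TF.LF f 8 := by
    apply Pool.Agent.Helper25.TF.lf_plane
    apply Pool.Agent.Helper25.TF.fin_plane
    intro R
    refine (D.fin (R + R)).subset ?_
    rintro s ⟨h1, h2⟩
    have := Complex.norm_le_abs_re_add_abs_im (D.v s)
    rw [mem_ofPred_eq]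
    linarith
  have hmem : ∀ s, sys T ≤ ‖D.v s‖ := by
    intro s
    obtain ⟨T', g, h1, h2⟩ := (D.vecs (D.v s)).2 ⟨s, rfl⟩
    rw [← h2]
    exact sys_le h1 g
  have hsup : ∀ s, ∃ w ∈ Icc (-1 : ℝ) 1, ρ ≤ f s w := by
    intro s
    have h1 := hmem s
    have h2 := Complex.norm_le_abs_re_add_abs_im (D.v s)
    have h3 : ∃ w : ℝ, (w = 1 ∨ w = -1) ∧ |(D.v s).re - w * (D.v s).im| = |(D.v s).re| + |(D.v s).im| := by
      rcases le_total 0 (D.v s).re with h | h <;> rcases le_total 0 (D.v s).im with h' | h'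
      · refine ⟨-1, Or.inr rfl, ?_⟩
        rw [abs_of_nonneg h, abs_of_nonneg h', abs_of_nonneg (by linarith)]; ring
      · refine ⟨1, Or.inl rfl, ?_⟩
        rw [abs_of_nonneg h, abs_of_nonpos h', abs_of_nonneg (by linarith)]; ring
      · refine ⟨1, Or.inl rfl, ?_⟩
        rw [abs_of_nonpos h, abs_of_nonneg h', abs_of_nonpos (by linarith)]; ring
      · refine ⟨-1, Or.inr rfl, ?_⟩
        rw [abs_of_nonpos h, abs_of_nonpos h', abs_of_nonpos (by linarith)]; ring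
    obtain ⟨w, hw, h4⟩ := h3
    refine ⟨w, by rcases hw with rfl | rfl <;> norm_num, ?_⟩
    have h5 : |(gsu t w (D.v s)).re| ≤ ‖gsu t w (D.v s)‖ := Complex.abs_re_le_norm _
    rw [gsu_re, abs_mul, abs_of_pos (Real.exp_pos _), h4] at h5
    rw [hfv]
    calc ρ ≤ sys T * Real.exp t := min_le_right _ _
      _ ≤ Real.exp t * (|(D.v s).re| + |(D.v s).im|) := by
          rw [mul_comm]; gcongr; linarith
      _ ≤ _ := h5
  have hunc : ∀ r l : ℝ, 0 < r → Λ ≤ l → r * l ^ n ≤ ρ₀ → ∀ w ∈ Icc (-1 : ℝ) 1, (∃ s, f s w ≤ r) →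
      ∃ k < n, w ∈ Pool.Agent.Helper25.TF.Bad f D.X (r * l ^ k) (r * l ^ (k + 1) / 4) := by
    intro r l hr hl hrl w _ ⟨s, hs⟩
    rw [hfv] at hs
    obtain ⟨k, hk, d, h1, h2⟩ := D.unc (gsu t w) (det_gsu t w) r l hr hl hrl ⟨s, hs⟩
    refine ⟨k, hk, d, ?_, ?_⟩
    · rw [hfv]; exact h1
    · intro s hs
      rw [hfv]; exact h2 s hs
  have hkms := Pool.Agent.Helper25.TF.kms hLF D.sym D.irr D.clique hn hΛ (by norm_num : (-1 : ℝ) ≤ 1) hunc hρ0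
    (min_le_left _ _) hsup (show 0 < 2 * r by positivity)
  refine (measure_mono ?_).trans (hkms.trans (ENNReal.ofReal_le_ofReal ?_))
  · rintro w ⟨hw, hw'⟩
    refine ⟨abs_le.1 hw, ?_⟩
    have h1 : sys (lev T t w) < 2 * r := by linarith
    rw [sys_lt_iff] at h1
    obtain ⟨T', g, h2, h3⟩ := h1
    obtain ⟨T'', h4, rfl⟩ := reach_act' _ _ h2
    obtain ⟨s, hs⟩ := (D.vecs (T''.vec g)).1 ⟨T'', g, h4, rfl⟩
    refine ⟨s, ?_⟩
    rw [hfv, hs]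
    exact le_of_lt h3
  · have hC : 0 ≤ Pool.Agent.Helper25.TF.Ckms 8 N n Λ := by
      unfold Pool.Agent.Helper25.TF.Ckms
      have := Pool.Agent.Helper25.TF.Cj_nonneg (show (0 : ℝ) ≤ 8 by norm_num) N
      positivity
    have h1 : (2 * r / ρ) ^ α ≤ 2 * (r / ρ) ^ α := by
      rw [mul_div_assoc, Real.mul_rpow (by norm_num) (by positivity)]
      gcongr
      calc (2 : ℝ) ^ α ≤ 2 ^ (1 : ℝ) := Real.rpow_le_rpow_of_exponent_le (by norm_num) hα1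
        _ = 2 := Real.rpow_one 2
    have h2 : 0 ≤ (r / ρ) ^ α := by positivity
    nlinarith [mul_le_mul_of_nonneg_left h1 hC]

/-- The field `kms` of `Inputs`. -/
theorem kms_field [Nonempty H] {N n : ℕ} {Λ ρ₀ : ℝ} (hn : 0 < n) (hΛ : 0 ≤ Λ) (hρ₀ : 0 < ρ₀) (P : Tri H → Prop)
    (h : ∀ Y : Tri H, P Y → 0 < sys Y ∧ ∃ S : Type, Nonempty (SadSys Y S N n Λ ρ₀)) :
    ∃ C α ρ : ℝ, 0 < C ∧ 0 < α ∧ 0 < ρ ∧ ∀ Y : Tri H, P Y → ∀ t r : ℝ, 0 ≤ t → 0 < r →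
      volume {w : ℝ | |w| ≤ 1 ∧ sys (lev Y t w) ≤ r} ≤ ENNReal.ofReal (C * (r / min ρ (sys Y * Real.exp t)) ^ α) := by
  have hC : 0 < Pool.Agent.Helper25.TF.Ckms 8 N n Λ := by
    unfold Pool.Agent.Helper25.TF.Ckms
    have := Pool.Agent.Helper25.TF.Cj_nonneg (show (0 : ℝ) ≤ 8 by norm_num) N
    positivity
  have hn' : (0 : ℝ) < n := by exact_mod_cast hn
  refine ⟨4 * Pool.Agent.Helper25.TF.Ckms 8 N n Λ, 1 / (2 * (n : ℝ)), ρ₀, by positivity, by positivity, hρ₀, ?_⟩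
  intro Y hY t r ht hr
  obtain ⟨h1, S, ⟨D⟩⟩ := h Y hY
  exact kms_of_sadSys D hn hΛ hρ₀ h1 t r ht hr

end Pool.Agent.Helper86.TF
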