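import Pool.Agent.Helper86.TF.LDMom
import Pool.Agent.Helper45.TFL.GRL

/-!
MP_e98778_an FULL, module G, G9 (LD), part 3: the large deviation estimate for the thick levels.
-/

open MeasureTheory Set Finset

namespace Pool.Agent.Helper86.TF

/-- Sum over cells against an integral over their union. -/
theorem sum_cells {ι : Type*} (N : ℕ) (hN : 0 < N) (w : ℝ) (hw : 0 < w) (j : ℕ) (I : Finset ι) (φ : ι → ℤ)
    (hφ : Set.InjOn φ I) (F : ι → ℝ) (g : ℝ → ℝ)
    (h : ∀ i ∈ I, ∀ u ∈ Cell N w j (φ i), F i ≤ g u) :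
    ∑ i ∈ I, ENNReal.ofReal (F i * (1 / (w * (N : ℝ) ^ j)))
      ≤ ∫⁻ u in ⋃ i ∈ I, Cell N w j (φ i), ENNReal.ofReal (g u) := by
  rw [lintegral_biUnion_finset]
  · apply Finset.sum_le_sum
    intro i hi
    have h1 : (0 : ℝ) ≤ 1 / (w * (N : ℝ) ^ j) := by positivity
    rw [ENNReal.ofReal_mul' h1, ← volume_Cell N hN w hw j (φ i), ← setLIntegral_const]
    exact setLIntegral_mono' (measurableSet_Cell N hN w hw j _) fun u hu =>
      ENNReal.ofReal_le_ofReal (h i hi u hu)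
  · intro i hi i' hi' hii
    rw [Function.onFun, Set.disjoint_left]
    intro u hu hu'
    have a1 : cell N w j u = φ i := hu
    have a2 : cell N w j u = φ i' := hu'
    exact hii (hφ hi hi' (a1.symm.trans a2))
  · intro i _
    exact measurableSet_Cell N hN w hw _ _

namespace EllData

variable {ell : ℝ → ℝ → ℝ} {C α ρ : ℝ}

/-- The left end of a cell. -/
noncomputable def pt (N : ℕ) (s : ℝ) (j : ℕ) (k : ℤ) : ℝ := (k : ℝ) / (Real.exp (2 * s) * (N : ℝ) ^ j)

/-- The value of a cell. -/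
noncomputable def xc (ell : ℝ → ℝ → ℝ) (β : ℝ) (N : ℕ) (τ s : ℝ) (j : ℕ) (k : ℤ) : ℝ :=
  1 + (ell (s + j * τ) (pt N s j k)) ^ (-β)

theorem len_eq {N : ℕ} {τ : ℝ} (hτ : Real.exp (2 * τ) = N) (s : ℝ) (j : ℕ) :
    Real.exp (2 * s) * (N : ℝ) ^ j = Real.exp (2 * (s + j * τ)) := by
  rw [← hτ, ← Real.exp_nat_mul, ← Real.exp_add]; congr 1; ring

theorem len_eq' {N : ℕ} {τ : ℝ} (hτ : Real.exp (2 * τ) = N) (s : ℝ) (j : ℕ) :
    1 / (Real.exp (2 * s) * (N : ℝ) ^ j) = Real.exp (-(2 * (s + j * τ))) := by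
  rw [len_eq hτ, Real.exp_neg, one_div]

theorem pt_near {N : ℕ} (hN : 0 < N) {τ : ℝ} (hτ : Real.exp (2 * τ) = N) (s : ℝ) (j : ℕ) (k : ℤ) {u : ℝ}
    (hu : u ∈ Cell N (Real.exp (2 * s)) j k) :
    pt N s j k ≤ u ∧ u ≤ pt N s j k + Real.exp (-(2 * (s + j * τ))) := by
  rw [Cell_eq N hN _ (Real.exp_pos _)] at hu
  refine ⟨hu.1, ?_⟩
  have h2 := hu.2
  rw [add_div, len_eq' hτ] at h2
  exact h2.le

variable (D : EllData ell C α ρ)
include D

theorem rpow_two_le {s u u₀ β : ℝ} (hβ : 0 ≤ β) (h : |u - u₀| ≤ Real.exp (-(2 * s))) :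
    (ell s u₀) ^ (-β) ≤ 2 ^ β * (ell s u) ^ (-β) := by
  have h1 := D.near s u u₀ h
  have h2 := D.pos s u
  have h3 := D.pos s u₀
  have h4 : (2 : ℝ) ^ β * (ell s u) ^ (-β) = (ell s u / 2) ^ (-β) := by
    rw [Real.div_rpow h2.le (by norm_num), Real.rpow_neg (by norm_num : (0 : ℝ) ≤ 2), div_inv_eq_mul, mul_comm]
  rw [h4]
  exact Real.rpow_le_rpow_of_nonpos (by positivity) (by linarith) (by linarith)

/-- The mean of the values of the children of a cell. -/
theorem mean {N : ℕ} (hN : 0 < N) {τ : ℝ} (hτ : Real.exp (2 * τ) = N) (hτ0 : 0 ≤ τ)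
    (hsmall : 2 ^ (α / 2) * (2 + C) * Real.exp (-(α / 2 * τ)) ≤ 1 / 2) (s : ℝ) (j : ℕ) (k : ℤ) :
    ∑ i ∈ Finset.range N, xc ell (α / 2) N τ s (j + 1) ((N : ℤ) * k + i)
      ≤ N * (xc ell (α / 2) N τ s j k / 2 + (1 + 2 ^ (α / 2) * (2 + C) * ρ ^ (-(α / 2)))) := by
  have hα := D.α_pos
  have hC := D.C_pos
  have hρ := D.ρ_pos
  have hNr : (0 : ℝ) < N := by exact_mod_cast hN
  set β := α / 2 with hβ
  have hβ0 : 0 < β := by positivity
  set w := Real.exp (2 * s) with hw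
  have hw0 : 0 < w := Real.exp_pos _
  set u₀ := pt N s j k with hu₀
  set s' := s + j * τ with hs'
  have hs'' : s + ((j + 1 : ℕ) : ℝ) * τ = s' + τ := by rw [hs']; push_cast; ring
  set m := min ρ (ell s' u₀ * Real.exp τ) with hm
  have hl := D.pos s' u₀
  have hm0 : 0 < m := lt_min hρ (mul_pos hl (Real.exp_pos _))
  -- the integral estimate
  have h1 : ∑ i ∈ Finset.range N, ENNReal.ofReal ((ell (s' + τ) (pt N s (j + 1) ((N : ℤ) * k + i))) ^ (-β)
      * (1 / (w * (N : ℝ) ^ (j + 1)))) ≤ ∫⁻ u in Cell N w j k, ENNReal.ofReal (2 ^ β * (ell (s' + τ) u) ^ (-β)) := by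
    rw [Cell_eq_union N hN w j k]
    refine sum_cells N hN w hw0 (j + 1) (Finset.range N) (fun i => (N : ℤ) * k + i) ?_
      (fun i => (ell (s' + τ) (pt N s (j + 1) ((N : ℤ) * k + i))) ^ (-β)) (fun u => 2 ^ β * (ell (s' + τ) u) ^ (-β)) ?_
    · intro i _ i' _ h
      simp only at h
      have : (i : ℤ) = i' := by linarith
      exact_mod_cast this
    · intro i _ u hu
      have h2 := pt_near hN hτ s (j + 1) _ hu
      rw [hs''] at h2
      apply D.rpow_two_le hβ0.le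
      rw [abs_le]
      constructor
      · have := Real.exp_pos (-(2 * (s' + τ))); linarith [h2.1]
      · linarith [h2.2]
  have h2 : ∫⁻ u in Cell N w j k, ENNReal.ofReal (2 ^ β * (ell (s' + τ) u) ^ (-β))
      ≤ ENNReal.ofReal (2 ^ β * ((2 + C) * m ^ (-β) * Real.exp (-(2 * s')))) := by
    have h3 : Cell N w j k ⊆ Icc (u₀ - Real.exp (-(2 * s'))) (u₀ + Real.exp (-(2 * s'))) := by
      intro u hu
      have h4 := pt_near hN hτ s j k hu
      have h5 := Real.exp_pos (-(2 * s'))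
      exact ⟨by linarith [h4.1], by linarith [h4.2]⟩
    refine (lintegral_mono_set h3).trans ?_
    have h4 : ∀ u, ENNReal.ofReal (2 ^ β * (ell (s' + τ) u) ^ (-β))
        = ENNReal.ofReal (2 ^ β) * ENNReal.ofReal ((ell (s' + τ) u) ^ (-β)) := fun u =>
      ENNReal.ofReal_mul (by positivity)
    simp only [h4]
    rw [lintegral_const_mul' _ _ ENNReal.ofReal_ne_top, ENNReal.ofReal_mul (by positivity)]
    gcongr
    exact D.mom_cell s' u₀ τ hτ0
  have h3 := h1.trans h2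
  rw [← ENNReal.ofReal_sum_of_nonneg, ENNReal.ofReal_le_ofReal_iff] at h3
  · rw [← Finset.sum_mul, len_eq' hτ, hs''] at h3
    -- the bound of `m ^ (-β)`
    have h4 : m ^ (-β) ≤ ρ ^ (-β) + (ell s' u₀) ^ (-β) * Real.exp (-(β * τ)) := by
      rcases min_choice ρ (ell s' u₀ * Real.exp τ) with h | h
      · rw [hm, h]
        have : 0 < (ell s' u₀) ^ (-β) := Real.rpow_pos_of_pos hl _
        have := mul_pos this (Real.exp_pos (-(β * τ)))
        linarith
      · rw [hm, h, Real.mul_rpow hl.le (Real.exp_pos _).le, ← Real.exp_mul]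
        have : 0 < ρ ^ (-β) := Real.rpow_pos_of_pos hρ _
        rw [show τ * -β = -(β * τ) by ring]
        linarith
    have h5 : Real.exp (-(2 * (s' + τ))) = Real.exp (-(2 * s')) / N := by
      rw [← hτ, ← Real.exp_sub]; congr 1; ring
    rw [h5] at h3
    have h6 := Real.exp_pos (-(2 * s'))
    have h7 : ∑ i ∈ Finset.range N, (ell (s' + τ) (pt N s (j + 1) ((N : ℤ) * k + i))) ^ (-β)
        ≤ N * (2 ^ β * ((2 + C) * m ^ (-β))) := by
      have e1 : (∑ i ∈ Finset.range N, (ell (s' + τ) (pt N s (j + 1) ((N : ℤ) * k + i))) ^ (-β))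
          * (Real.exp (-(2 * s')) / N) = ((∑ i ∈ Finset.range N,
            (ell (s' + τ) (pt N s (j + 1) ((N : ℤ) * k + i))) ^ (-β)) / N) * Real.exp (-(2 * s')) := by ring
      have e2 : (2 : ℝ) ^ β * ((2 + C) * m ^ (-β) * Real.exp (-(2 * s')))
          = (2 ^ β * ((2 + C) * m ^ (-β))) * Real.exp (-(2 * s')) := by ring
      rw [e1, e2] at h3
      have h8 := le_of_mul_le_mul_right h3 h6
      rw [div_le_iff₀ hNr] at h8
      linarith
    have h8 : (2 : ℝ) ^ β * ((2 + C) * m ^ (-β)) ≤ 2 ^ β * (2 + C) * ρ ^ (-β) + (ell s' u₀) ^ (-β) / 2 := by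
      have p1 : (0 : ℝ) < 2 ^ β := by positivity
      have p2 : 0 < (ell s' u₀) ^ (-β) := Real.rpow_pos_of_pos hl _
      calc (2 : ℝ) ^ β * ((2 + C) * m ^ (-β)) ≤ 2 ^ β * ((2 + C) * (ρ ^ (-β) + (ell s' u₀) ^ (-β) * Real.exp (-(β * τ)))) := by
            gcongr
        _ = 2 ^ β * (2 + C) * ρ ^ (-β) + (2 ^ β * (2 + C) * Real.exp (-(β * τ))) * (ell s' u₀) ^ (-β) := by ring
        _ ≤ _ := by nlinarith
    have h9 : ∑ i ∈ Finset.range N, xc ell β N τ s (j + 1) ((N : ℤ) * k + i)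
        = N + ∑ i ∈ Finset.range N, (ell (s' + τ) (pt N s (j + 1) ((N : ℤ) * k + i))) ^ (-β) := by
      unfold xc
      rw [Finset.sum_add_distrib, hs'']
      simp
    rw [h9]
    have h10 : xc ell β N τ s j k = 1 + (ell s' u₀) ^ (-β) := rfl
    rw [h10]
    nlinarith
  · have : 0 < m ^ (-β) := Real.rpow_pos_of_pos hm0 _
    positivity
  · intro i _
    have : 0 < (ell (s' + τ) (pt N s (j + 1) ((N : ℤ) * k + i))) ^ (-β) := Real.rpow_pos_of_pos (D.pos _ _) _
    positivity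

/-- Thick cells give thick integer levels. -/
theorem thick_le_count {N : ℕ} (hN : 0 < N) {τ : ℝ} (hτ : Real.exp (2 * τ) = N) (hτ1 : 1 ≤ τ) {M : ℝ} (hM : 1 ≤ M)
    (s u : ℝ) (T n : ℕ) (hT : T * τ ≤ n) :
    thick N (Real.exp (2 * s)) (xc ell (α / 2) N τ s) M T 0 u
      ≤ Pool.Agent.TFL.Sys.tameCount (fun s => {u | Real.exp (-1) * (M ^ (-(2 / α)) / 2) ≤ ell s u}) s n u := by
  classical
  have hα := D.α_pos
  have hτ0 : 0 < τ := by linarith
  unfold thick Pool.Agent.TFL.Sys.tameCount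
  apply Finset.card_le_card_of_injOn (fun j : ℕ => ⌈(j : ℝ) * τ⌉₊)
  · intro j hj
    rw [Finset.coe_filter, Set.mem_ofPred_eq, Finset.mem_range, zero_add] at hj
    obtain ⟨hjT, hj⟩ := hj
    rw [Finset.coe_filter, Set.mem_ofPred_eq, Finset.mem_range]
    have hj1 : ((j : ℝ) + 1) * τ ≤ n := by
      have : (j : ℝ) + 1 ≤ T := by exact_mod_cast hjT
      nlinarith
    have hjτ : 0 ≤ (j : ℝ) * τ := by positivity
    have hc1 := Nat.ceil_lt_add_one hjτ
    have hc2 := Nat.le_ceil ((j : ℝ) * τ)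
    refine ⟨?_, ?_⟩
    · have : ((⌈(j : ℝ) * τ⌉₊ : ℕ) : ℝ) < n := by nlinarith
      exact_mod_cast this
    · rw [Set.mem_ofPred_eq]
      set k := cell N (Real.exp (2 * s)) j u with hk
      have hu : u ∈ Cell N (Real.exp (2 * s)) j k := rfl
      have hpt := pt_near hN hτ s j k hu
      have hl := D.pos (s + j * τ) (pt N s j k)
      have h1 : (ell (s + j * τ) (pt N s j k)) ^ (-(α / 2)) ≤ M := by
        have h2 : xc ell (α / 2) N τ s j k = 1 + (ell (s + j * τ) (pt N s j k)) ^ (-(α / 2)) := rfl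
        rw [h2] at hj
        linarith
      have h2 : M ^ (-(2 / α)) ≤ ell (s + j * τ) (pt N s j k) := by
        have h3 : 0 < (ell (s + j * τ) (pt N s j k)) ^ (-(α / 2)) := Real.rpow_pos_of_pos hl _
        have h4 : M ^ (-(2 / α)) ≤ ((ell (s + j * τ) (pt N s j k)) ^ (-(α / 2))) ^ (-(2 / α)) := by
          apply Real.rpow_le_rpow_of_nonpos h3 h1
          have : 0 < 2 / α := by positivity
          linarith
        rwa [← Real.rpow_mul hl.le, show -(α / 2) * -(2 / α) = 1 by field_simp, Real.rpow_one] at h4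
      have h3 : ell (s + j * τ) (pt N s j k) ≤ 2 * ell (s + j * τ) u := by
        apply D.near
        rw [abs_le]
        constructor
        · linarith [hpt.2]
        · have := Real.exp_pos (-(2 * (s + j * τ))); linarith [hpt.1]
      have h4 := D.down (s + j * τ) u ((⌈(j : ℝ) * τ⌉₊ : ℝ) - j * τ) (by linarith)
      rw [show s + j * τ + ((⌈(j : ℝ) * τ⌉₊ : ℝ) - j * τ) = s + (⌈(j : ℝ) * τ⌉₊ : ℝ) by ring] at h4
      refine le_trans ?_ h4
      have h5 : Real.exp (-1) ≤ Real.exp (-((⌈(j : ℝ) * τ⌉₊ : ℝ) - j * τ)) := Real.exp_le_exp.2 (by linarith)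
      have h6 : 0 < M ^ (-(2 / α)) := Real.rpow_pos_of_pos (by linarith) _
      have h7 : M ^ (-(2 / α)) / 2 ≤ ell (s + j * τ) u := by linarith
      exact mul_le_mul h5 h7 (by positivity) (Real.exp_pos _).le
  · have hmono : StrictMono fun j : ℕ => ⌈(j : ℝ) * τ⌉₊ := by
      apply strictMono_nat_of_lt_succ
      intro j
      have hjτ : 0 ≤ (j : ℝ) * τ := by positivity
      have hc1 := Nat.ceil_lt_add_one hjτ
      have hc2 := Nat.le_ceil (((j + 1 : ℕ) : ℝ) * τ)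
      push_cast at hc2
      have : ((⌈(j : ℝ) * τ⌉₊ : ℕ) : ℝ) < ((⌈((j + 1 : ℕ) : ℝ) * τ⌉₊ : ℕ) : ℝ) := by
        push_cast
        nlinarith
      exact_mod_cast this
    exact hmono.injective.injOn

/-- Few thick cells are improbable, on an interval. -/
theorem tree_sum {N : ℕ} (hN : 0 < N) {τ : ℝ} (hτ : Real.exp (2 * τ) = N) (hτ0 : 0 ≤ τ)
    (hsmall : 2 ^ (α / 2) * (2 + C) * Real.exp (-(α / 2 * τ)) ≤ 1 / 2) {B : ℝ}
    (hB : B = 1 + 2 ^ (α / 2) * (2 + C) * ρ ^ (-(α / 2))) (a b : ℝ) (hab : a < b) :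
    ∃ s₀ : ℝ, ∀ s : ℝ, s₀ ≤ s → ∀ t : ℕ,
      volume ({u | (thick N (Real.exp (2 * s)) (xc ell (α / 2) N τ s) (8 * B + 2) t 0 u : ℝ)
        * (5 * Real.log (8 * B + 8 / 5)) < t} ∩ Icc a b) ≤ ENNReal.ofReal (3 * B * (b - a) * Real.exp (-(t / 5))) := by
  have hα := D.α_pos
  have hC := D.C_pos
  have hρ := D.ρ_pos
  have hρβ : 0 < ρ ^ (-(α / 2)) := Real.rpow_pos_of_pos hρ _
  have hB1 : 1 ≤ B := by rw [hB]; have : 0 < 2 ^ (α / 2) * (2 + C) * ρ ^ (-(α / 2)) := by positivity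
                         linarith
  obtain ⟨s₁, hs₁⟩ := D.mom (2 * a - b) (2 * b - a) (by linarith)
  refine ⟨max s₁ (-(Real.log (b - a) / 2)), fun s hs t => ?_⟩
  have hss := (le_max_left _ _).trans hs
  have hs2 := (le_max_right _ _).trans hs
  have hwinv : Real.exp (-(2 * s)) ≤ b - a := by
    rw [← Real.le_log_iff_exp_le (by linarith)]; linarith
  set w := Real.exp (2 * s) with hw
  have hw0 : 0 < w := Real.exp_pos _
  have hwi : 1 / w = Real.exp (-(2 * s)) := by rw [hw, Real.exp_neg, one_div]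
  have hmom := hs₁ s hss
  set β := α / 2 with hβ
  have hβ0 : 0 < β := by positivity
  set A := 5 * Real.log (8 * B + 8 / 5) with hA
  set x := xc ell β N τ s with hx
  have hx1 : ∀ j k, 1 ≤ x j k := by
    intro j k
    have : x j k = 1 + (ell (s + j * τ) (pt N s j k)) ^ (-β) := rfl
    rw [this]
    have := Real.rpow_pos_of_pos (D.pos (s + j * τ) (pt N s j k)) (-β)
    linarith
  have hmean : ∀ j k, ∑ i ∈ Finset.range N, x (j + 1) ((N : ℤ) * k + i) ≤ N * (x j k / 2 + B) := by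
    intro j k
    rw [hB]
    exact D.mean hN hτ hτ0 hsmall s j k
  have hcell := ld_tree N hN w hw0 x B (by linarith) hx1 hmean t 0
  set K := Finset.Icc ⌊a * w⌋ ⌊b * w⌋ with hK
  have hsub : ({u | (thick N w x (8 * B + 2) t 0 u : ℝ) * A < t} ∩ Icc a b) ⊆
      ⋃ k ∈ K, {u | u ∈ Cell N w 0 k ∧ (thick N w x (8 * B + 2) t 0 u : ℝ) * A < t} := by
    rintro u ⟨hu, hu'⟩
    simp only [Set.mem_iUnion, exists_prop]
    refine ⟨cell N w 0 u, ?_, rfl, hu⟩
    rw [hK, Finset.mem_Icc]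
    unfold cell
    rw [pow_zero, mul_one]
    exact ⟨Int.floor_le_floor (mul_le_mul_of_nonneg_right hu'.1 hw0.le),
      Int.floor_le_floor (mul_le_mul_of_nonneg_right hu'.2 hw0.le)⟩
  refine (measure_mono hsub).trans ((measure_biUnion_finset_le _ _).trans ?_)
  have h1 : ∑ k ∈ K, volume {u | u ∈ Cell N w 0 k ∧ (thick N w x (8 * B + 2) t 0 u : ℝ) * A < t}
      ≤ ENNReal.ofReal (Real.exp (-(t / 5))) * ∑ k ∈ K, ENNReal.ofReal (x 0 k * (1 / (w * (N : ℝ) ^ 0))) := by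
    rw [Finset.mul_sum]
    apply Finset.sum_le_sum
    intro k _
    refine (hcell k).trans (le_of_eq ?_)
    rw [← ENNReal.ofReal_mul (Real.exp_pos _).le]
    congr 1
    ring
  refine h1.trans ?_
  have hunion : (⋃ k ∈ K, Cell N w 0 (id k)) ⊆ Icc (2 * a - b) (2 * b - a) := by
    intro u hu
    simp only [Set.mem_iUnion, exists_prop, id] at hu
    obtain ⟨k, hk, hu⟩ := hu
    rw [hK, Finset.mem_Icc] at hk
    rw [Cell_eq N hN w hw0, pow_zero, mul_one] at hu
    have ha : a * w - 1 < k := by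
      have h2 : (⌊a * w⌋ : ℝ) ≤ k := by exact_mod_cast hk.1
      linarith [Int.sub_one_lt_floor (a * w)]
    have hb : (k : ℝ) ≤ b * w := by
      have h2 : (k : ℝ) ≤ ⌊b * w⌋ := by exact_mod_cast hk.2
      linarith [Int.floor_le (b * w)]
    have e1 : a - 1 / w < k / w := by
      rw [lt_div_iff₀ hw0]; rw [sub_mul]; rw [one_div, inv_mul_cancel₀ hw0.ne']; exact ha
    have e2 : ((k : ℝ) + 1) / w ≤ b + 1 / w := by
      rw [div_le_iff₀ hw0, add_mul, one_div, inv_mul_cancel₀ hw0.ne']; linarith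
    rw [hwi] at e1 e2
    exact ⟨by linarith [hu.1], by linarith [hu.2]⟩
  have h2 : ∑ k ∈ K, ENNReal.ofReal (x 0 k * (1 / (w * (N : ℝ) ^ 0)))
      ≤ ∫⁻ u in Icc (2 * a - b) (2 * b - a), ENNReal.ofReal (1 + 2 ^ β * (ell s u) ^ (-β)) := by
    refine le_trans (sum_cells N hN w hw0 0 K id (fun _ _ _ _ h => h) (x 0)
      (fun u => 1 + 2 ^ β * (ell s u) ^ (-β)) ?_) (lintegral_mono_set hunion)
    intro k _ u hu
    have h3 := pt_near hN hτ s 0 _ hu
    have h4 : x 0 k = 1 + (ell (s + (0 : ℕ) * τ) (pt N s 0 k)) ^ (-β) := rfl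
    rw [h4]
    have h5 : s + ((0 : ℕ) : ℝ) * τ = s := by simp
    rw [h5] at h3 ⊢
    have h6 : (ell s (pt N s 0 k)) ^ (-β) ≤ 2 ^ β * (ell s u) ^ (-β) := by
      apply D.rpow_two_le hβ0.le
      rw [abs_le]
      simp only [id] at h3
      constructor
      · have := Real.exp_pos (-(2 * s)); linarith [h3.1]
      · linarith [h3.2]
    linarith
  have h3 : ∫⁻ u in Icc (2 * a - b) (2 * b - a), ENNReal.ofReal (1 + 2 ^ β * (ell s u) ^ (-β))
      ≤ ENNReal.ofReal (3 * B * (b - a)) := by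
    have e1 : ∀ u, ENNReal.ofReal (1 + 2 ^ β * (ell s u) ^ (-β))
        = 1 + ENNReal.ofReal (2 ^ β) * ENNReal.ofReal ((ell s u) ^ (-β)) := by
      intro u
      have := Real.rpow_pos_of_pos (D.pos s u) (-β)
      rw [ENNReal.ofReal_add (by norm_num) (by positivity), ENNReal.ofReal_one, ENNReal.ofReal_mul (by positivity)]
    simp only [e1]
    rw [lintegral_add_left measurable_const, lintegral_const_mul' _ _ ENNReal.ofReal_ne_top, setLIntegral_const,
      Real.volume_Icc, one_mul]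
    refine (add_le_add le_rfl (mul_le_mul_right hmom _)).trans ?_
    rw [← ENNReal.ofReal_mul (by positivity), ← ENNReal.ofReal_add (by linarith) ?_]
    · apply ENNReal.ofReal_le_ofReal
      rw [hB]
      apply le_of_eq
      ring
    · have : 0 < b - a := by linarith
      have e2 : 2 * b - a - (2 * a - b) = 3 * (b - a) := by ring
      rw [e2]
      positivity
  calc ENNReal.ofReal (Real.exp (-(t / 5))) * ∑ k ∈ K, ENNReal.ofReal (x 0 k * (1 / (w * (N : ℝ) ^ 0)))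
      ≤ ENNReal.ofReal (Real.exp (-(t / 5))) * ENNReal.ofReal (3 * B * (b - a)) := by
        gcongr
        exact h2.trans h3
    _ = ENNReal.ofReal (3 * B * (b - a) * Real.exp (-(t / 5))) := by
        rw [← ENNReal.ofReal_mul (Real.exp_pos _).le]
        congr 1
        ring

end EllData

/-- The parameters of the tree. -/
theorem exists_params (C β : ℝ) (hC : 0 < C) (hβ : 0 < β) : ∃ (N : ℕ) (τ : ℝ), 0 < N ∧ Real.exp (2 * τ) = N ∧ 1 ≤ τ ∧
    2 ^ β * (2 + C) * Real.exp (-(β * τ)) ≤ 1 / 2 := by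
  set X : ℝ := 2 * (2 ^ β * (2 + C)) with hX
  have hX0 : 0 < X := by positivity
  obtain ⟨N, hN⟩ := exists_nat_ge (max 8 (X ^ (2 / β)))
  have hN8 : (8 : ℝ) ≤ N := (le_max_left _ _).trans hN
  have hNX : X ^ (2 / β) ≤ N := (le_max_right _ _).trans hN
  have hN0 : (0 : ℝ) < N := by linarith
  refine ⟨N, Real.log N / 2, by exact_mod_cast hN0, ?_, ?_, ?_⟩
  · rw [show 2 * (Real.log N / 2) = Real.log N by ring, Real.exp_log hN0]
  · have h1 : (2 : ℝ) ≤ Real.log N := by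
      rw [Real.le_log_iff_exp_le hN0]
      have h2 : Real.exp 2 = Real.exp 1 ^ 2 := by rw [← Real.exp_nat_mul]; norm_num
      have h3 : Real.exp 1 ^ 2 ≤ (2.7182818286 : ℝ) ^ 2 :=
        pow_le_pow_left₀ (Real.exp_pos _).le Real.exp_one_lt_d9.le 2
      rw [h2]
      norm_num at h3
      linarith
    linarith
  · have h1 : X ≤ Real.exp (β * (Real.log N / 2)) := by
      have h2 : Real.exp (β * (Real.log N / 2)) = (N : ℝ) ^ (β / 2) := by
        rw [Real.rpow_def_of_pos hN0]; congr 1; ring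
      have h3 : (X ^ (2 / β)) ^ (β / 2) ≤ (N : ℝ) ^ (β / 2) := Real.rpow_le_rpow (by positivity) hNX (by positivity)
      rw [← Real.rpow_mul hX0.le, show 2 / β * (β / 2) = 1 by field_simp, Real.rpow_one] at h3
      rw [h2]
      exact h3
    rw [Real.exp_neg, ← div_eq_mul_inv, div_le_iff₀ (Real.exp_pos _)]
    linarith

/-- (LD) for the thick levels. The constants depend on `C, α, ρ` only. -/
theorem ld_ell (C α ρ : ℝ) (hC : 0 < C) (hα : 0 < α) (hρ : 0 < ρ) : ∃ κ ε c K : ℝ, 0 < κ ∧ 0 < ε ∧ 0 < c ∧ 0 < K ∧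
    ∀ ell : ℝ → ℝ → ℝ, EllData ell C α ρ → ∀ a b : ℝ, a < b → ∃ s₀ : ℝ, ∀ s : ℝ, s₀ ≤ s → ∀ n : ℕ,
      volume ({u | (Pool.Agent.TFL.Sys.tameCount (fun s => {u | κ ≤ ell s u}) s n u : ℝ) < ε * n} ∩ Icc a b) ≤
        ENNReal.ofReal (K * Real.exp (-(c * n)) * (b - a)) := by
  obtain ⟨N, τ, hN, hτ, hτ1, hsmall⟩ := exists_params C (α / 2) hC (by positivity)
  set B := 1 + 2 ^ (α / 2) * (2 + C) * ρ ^ (-(α / 2)) with hB
  have hρβ : 0 < ρ ^ (-(α / 2)) := Real.rpow_pos_of_pos hρ _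
  have hB1 : 1 ≤ B := by rw [hB]; have : 0 < 2 ^ (α / 2) * (2 + C) * ρ ^ (-(α / 2)) := by positivity
                         linarith
  set A := 5 * Real.log (8 * B + 8 / 5) with hA
  have hA0 : 0 < A := by
    have := Real.log_pos (show (1 : ℝ) < 8 * B + 8 / 5 by linarith)
    positivity
  have hM0 : 0 < (8 * B + 2) ^ (-(2 / α)) := Real.rpow_pos_of_pos (by linarith) _
  have hτ0 : 0 < τ := by linarith
  refine ⟨Real.exp (-1) * ((8 * B + 2) ^ (-(2 / α)) / 2), 1 / (2 * τ * A), 1 / (10 * τ), 3 * B, by positivity,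
    by positivity, by positivity, by positivity, ?_⟩
  intro ell D a b hab
  obtain ⟨s₀, hs₀⟩ := D.tree_sum hN hτ hτ0.le hsmall hB a b hab
  refine ⟨s₀, fun s hs n => ?_⟩
  have hba : 0 < b - a := by linarith
  by_cases hn : (n : ℝ) < 2 * τ
  · refine (measure_mono inter_subset_right).trans ?_
    rw [Real.volume_Icc]
    apply ENNReal.ofReal_le_ofReal
    have h1 : 1 - 1 / 5 ≤ Real.exp (-(1 / (10 * τ) * n)) := by
      have h2 := Real.add_one_le_exp (-(1 / (10 * τ) * n))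
      have h3 : 1 / (10 * τ) * n ≤ 1 / 5 := by
        rw [one_div, inv_mul_le_iff₀ (by positivity)]; linarith
      linarith
    have h2 : 1 ≤ 3 * B * Real.exp (-(1 / (10 * τ) * n)) := by nlinarith
    nlinarith
  · push Not at hn
    set T := ⌊(n : ℝ) / τ⌋₊ with hT
    have hT1 : (T : ℝ) * τ ≤ n := by
      have := Nat.floor_le (show (0 : ℝ) ≤ n / τ by positivity)
      rwa [← hT, le_div_iff₀ hτ0] at this
    have hT2 : (n : ℝ) / (2 * τ) ≤ T := by
      have h1 := Nat.lt_floor_add_one ((n : ℝ) / τ)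
      rw [← hT] at h1
      have h2 : (n : ℝ) / τ = 2 * (n / (2 * τ)) := by field_simp
      have h3 : 1 ≤ (n : ℝ) / (2 * τ) := by rw [le_div_iff₀ (by positivity)]; linarith
      rw [h2] at h1
      linarith
    refine le_trans (measure_mono (inter_subset_inter_left _ ?_)) ((hs₀ s hs T).trans ?_)
    · intro u hu
      rw [Set.mem_ofPred_eq] at hu ⊢
      have h1 := D.thick_le_count hN hτ hτ1 (show (1 : ℝ) ≤ 8 * B + 2 by linarith) s u T n hT1
      have h2 : (thick N (Real.exp (2 * s)) (EllData.xc ell (α / 2) N τ s) (8 * B + 2) T 0 u : ℝ)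
          < 1 / (2 * τ * A) * n := lt_of_le_of_lt (by exact_mod_cast h1) hu
      calc (thick N (Real.exp (2 * s)) (EllData.xc ell (α / 2) N τ s) (8 * B + 2) T 0 u : ℝ) * A
          < (1 / (2 * τ * A) * n) * A := by gcongr
        _ = n / (2 * τ) := by field_simp
        _ ≤ T := hT2
    · apply ENNReal.ofReal_le_ofReal
      have h1 : Real.exp (-((T : ℝ) / 5)) ≤ Real.exp (-(1 / (10 * τ) * n)) := by
        apply Real.exp_le_exp.2
        have : 1 / (10 * τ) * n = (n / (2 * τ)) / 5 := by field_simp; ring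
        rw [this]
        linarith
      calc 3 * B * (b - a) * Real.exp (-((T : ℝ) / 5)) ≤ 3 * B * (b - a) * Real.exp (-(1 / (10 * τ) * n)) := by gcongr
        _ = _ := by ring

end Pool.Agent.Helper86.TF
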