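import Pool.Agent.Helper86.TF.LDTree

/-!
MP_e98778_an FULL, module G, G9 (LD), part 2: from the power bound KMS' (G8) to moments and tails.

`ell s u` is the length of the shortest saddle connection of the surface of level `s` and slope `u`.
`EllData ell C α ρ` collects what is used of it.
-/

open MeasureTheory Set

namespace Pool.Agent.Helper86.TF

/-- Hypotheses on the systole function `ell s u`. -/
structure EllData (ell : ℝ → ℝ → ℝ) (C α ρ : ℝ) : Prop where
  C_pos : 0 < C
  α_pos : 0 < α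
  ρ_pos : 0 < ρ
  pos : ∀ s u, 0 < ell s u
  meas : ∀ s, Measurable (ell s)
  down : ∀ s u t, 0 ≤ t → Real.exp (-t) * ell s u ≤ ell (s + t) u
  near : ∀ s u u₀, |u - u₀| ≤ Real.exp (-(2 * s)) → ell s u ≤ 2 * ell s u₀
  kms : ∀ s u₀ t r, 0 ≤ t → 0 < r →
    volume {u | |u - u₀| ≤ Real.exp (-(2 * s)) ∧ ell (s + t) u ≤ r} ≤
      ENNReal.ofReal (C * (r / min ρ (ell s u₀ * Real.exp t)) ^ α * Real.exp (-(2 * s)))

namespace EllData

variable {ell : ℝ → ℝ → ℝ} {C α ρ : ℝ} (D : EllData ell C α ρ)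
include D

theorem meas_rpow (s β : ℝ) : Measurable fun u => (ell s u) ^ β :=
  (D.meas s).pow_const β

/-- Moment over a cell. -/
theorem mom_cell (s u₀ t : ℝ) (ht : 0 ≤ t) :
    ∫⁻ u in Icc (u₀ - Real.exp (-(2 * s))) (u₀ + Real.exp (-(2 * s))), ENNReal.ofReal ((ell (s + t) u) ^ (-(α / 2)))
      ≤ ENNReal.ofReal ((2 + C) * (min ρ (ell s u₀ * Real.exp t)) ^ (-(α / 2)) * Real.exp (-(2 * s))) := by
  set I := Icc (u₀ - Real.exp (-(2 * s))) (u₀ + Real.exp (-(2 * s))) with hI
  set m := min ρ (ell s u₀ * Real.exp t) with hm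
  have hα := D.α_pos
  have hC := D.C_pos
  have hm0 : 0 < m := lt_min D.ρ_pos (mul_pos (D.pos _ _) (Real.exp_pos _))
  set Y := m ^ (-(α / 2)) with hY
  have hY0 : 0 < Y := Real.rpow_pos_of_pos hm0 _
  have hIm : MeasurableSet I := measurableSet_Icc
  rw [lintegral_eq_lintegral_meas_le (volume.restrict I)
    (Filter.Eventually.of_forall fun u => (Real.rpow_pos_of_pos (D.pos _ _) _).le) (D.meas_rpow _ _).aemeasurable]
  have hvolI : volume I = ENNReal.ofReal (2 * Real.exp (-(2 * s))) := by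
    rw [hI, Real.volume_Icc]; congr 1; ring
  have hsplit : (Ioi (0 : ℝ)) = Ioc 0 Y ∪ Ioi Y := (Ioc_union_Ioi_eq_Ioi hY0.le).symm
  rw [hsplit]
  refine (lintegral_union_le _ _ _).trans ?_
  have h1 : ∫⁻ y in Ioc 0 Y, (volume.restrict I) {a | y ≤ (ell (s + t) a) ^ (-(α / 2))}
      ≤ ENNReal.ofReal (2 * Real.exp (-(2 * s)) * Y) := by
    calc _ ≤ ∫⁻ y in Ioc 0 Y, ENNReal.ofReal (2 * Real.exp (-(2 * s))) := by
          apply lintegral_mono
          intro y
          refine (measure_mono (subset_univ _)).trans ?_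
          rw [Measure.restrict_apply MeasurableSet.univ, univ_inter, hvolI]
      _ = ENNReal.ofReal (2 * Real.exp (-(2 * s)) * Y) := by
          rw [setLIntegral_const, Real.volume_Ioc, sub_zero, ← ENNReal.ofReal_mul (by positivity)]
  have h2 : ∫⁻ y in Ioi Y, (volume.restrict I) {a | y ≤ (ell (s + t) a) ^ (-(α / 2))}
      ≤ ENNReal.ofReal (C * m ^ (-α) * Real.exp (-(2 * s)) * Y⁻¹) := by
    calc _ ≤ ∫⁻ y in Ioi Y, ENNReal.ofReal (C * m ^ (-α) * Real.exp (-(2 * s)) * y ^ (-2 : ℝ)) := by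
          apply setLIntegral_mono' measurableSet_Ioi
          intro y hy
          have hy0 : 0 < y := hY0.trans hy
          rw [Measure.restrict_apply' hIm]
          have hsub : {a | y ≤ (ell (s + t) a) ^ (-(α / 2))} ∩ I ⊆
              {u | |u - u₀| ≤ Real.exp (-(2 * s)) ∧ ell (s + t) u ≤ y ^ (-(2 / α))} := by
            rintro u ⟨hu, hu'⟩
            refine ⟨abs_le.2 ⟨by linarith [hu'.1], by linarith [hu'.2]⟩, ?_⟩
            have h3 : y ≤ (ell (s + t) u) ^ (-(α / 2)) := hu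
            have h4 : ((ell (s + t) u) ^ (-(α / 2))) ^ (-(2 / α)) ≤ y ^ (-(2 / α)) := by
              apply Real.rpow_le_rpow_of_nonpos hy0 h3
              have : 0 < 2 / α := by positivity
              linarith
            rw [← Real.rpow_mul (D.pos _ _).le, show -(α / 2) * -(2 / α) = 1 by field_simp, Real.rpow_one] at h4
            exact h4
          refine (measure_mono hsub).trans ((D.kms s u₀ t _ ht (Real.rpow_pos_of_pos hy0 _)).trans ?_)
          apply ENNReal.ofReal_le_ofReal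
          rw [← hm, Real.div_rpow (Real.rpow_pos_of_pos hy0 _).le hm0.le, ← Real.rpow_mul hy0.le,
            show -(2 / α) * α = -2 by field_simp, Real.rpow_neg hm0.le]
          apply le_of_eq
          ring
      _ = ENNReal.ofReal (C * m ^ (-α) * Real.exp (-(2 * s)) * Y⁻¹) := by
          have h5 : IntegrableOn (fun y : ℝ => C * m ^ (-α) * Real.exp (-(2 * s)) * y ^ (-2 : ℝ)) (Ioi Y) :=
            (integrableOn_Ioi_rpow_of_lt (by norm_num) hY0).const_mul _
          rw [← ofReal_integral_eq_lintegral_ofReal h5]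
          · congr 1
            rw [integral_const_mul, integral_Ioi_rpow_of_lt (by norm_num) hY0]
            rw [show (-2 : ℝ) + 1 = -1 by norm_num, Real.rpow_neg_one]
            ring
          · rw [Filter.EventuallyLE, ae_restrict_iff' measurableSet_Ioi]
            apply Filter.Eventually.of_forall
            intro y hy
            have hy0 : 0 < y := hY0.trans hy
            have : 0 < m ^ (-α) := Real.rpow_pos_of_pos hm0 _
            simp only [Pi.zero_apply]
            positivity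
  refine (add_le_add h1 h2).trans ?_
  have hmα : 0 < m ^ (-α) := Real.rpow_pos_of_pos hm0 _
  rw [← ENNReal.ofReal_add (by positivity) (by positivity)]
  apply ENNReal.ofReal_le_ofReal
  have h6 : m ^ (-α) * Y⁻¹ = Y := by
    rw [hY, ← Real.rpow_neg hm0.le, ← Real.rpow_add hm0]
    congr 1; ring
  apply le_of_eq
  linear_combination (C * Real.exp (-(2 * s))) * h6

/-- Moments on an interval, for all large levels. -/
theorem mom (a b : ℝ) (hab : a < b) : ∃ s₀ : ℝ, ∀ s : ℝ, s₀ ≤ s →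
    ∫⁻ u in Icc a b, ENNReal.ofReal ((ell s u) ^ (-(α / 2)))
      ≤ ENNReal.ofReal ((2 + C) * ρ ^ (-(α / 2)) * (b - a)) := by
  have hρ := D.ρ_pos
  have hC := D.C_pos
  set σ : ℝ := -(Real.log ((b - a) / 2) / 2) with hσ
  set u₀ : ℝ := (a + b) / 2 with hu₀
  have hba : 0 < (b - a) / 2 := by linarith
  have he : Real.exp (-(2 * σ)) = (b - a) / 2 := by
    rw [hσ, show -(2 * -(Real.log ((b - a) / 2) / 2)) = Real.log ((b - a) / 2) by ring, Real.exp_log hba]
  have hl := D.pos σ u₀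
  refine ⟨σ + max 0 (Real.log (ρ / ell σ u₀)), fun s hs => ?_⟩
  have ht0 : 0 ≤ s - σ := by
    have := le_max_left 0 (Real.log (ρ / ell σ u₀)); linarith
  have ht1 : Real.log (ρ / ell σ u₀) ≤ s - σ := by
    have := le_max_right 0 (Real.log (ρ / ell σ u₀)); linarith
  have hmin : min ρ (ell σ u₀ * Real.exp (s - σ)) = ρ := by
    apply min_eq_left
    rw [Real.log_le_iff_le_exp (by positivity), div_le_iff₀ hl] at ht1
    linarith
  have h := D.mom_cell σ u₀ (s - σ) ht0
  rw [hmin, he, show σ + (s - σ) = s by ring, show u₀ - (b - a) / 2 = a by rw [hu₀]; ring,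
    show u₀ + (b - a) / 2 = b by rw [hu₀]; ring] at h
  refine h.trans (ENNReal.ofReal_le_ofReal ?_)
  have hρp : 0 < ρ ^ (-(α / 2)) := Real.rpow_pos_of_pos hρ _
  have : 0 < (2 + C) * ρ ^ (-(α / 2)) := by positivity
  nlinarith

/-- Tail bound on an interval, for all large levels. -/
theorem tail (a b : ℝ) (hab : a < b) : ∃ s₀ : ℝ, ∀ s : ℝ, s₀ ≤ s → ∀ r : ℝ, 0 < r →
    volume ({u | ell s u ≤ r} ∩ Icc a b)
      ≤ ENNReal.ofReal ((2 + C) * ρ ^ (-(α / 2)) * r ^ (α / 2) * (b - a)) := by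
  obtain ⟨s₀, h⟩ := D.mom a b hab
  refine ⟨s₀, fun s hs r hr => ?_⟩
  have h1 := h s hs
  have hα := D.α_pos
  have hC := D.C_pos
  have hρ := D.ρ_pos
  have hrp : 0 < r ^ (-(α / 2)) := Real.rpow_pos_of_pos hr _
  have hrp' : 0 < r ^ (α / 2) := Real.rpow_pos_of_pos hr _
  have h2 : ENNReal.ofReal (r ^ (-(α / 2))) * volume ({u | ell s u ≤ r} ∩ Icc a b)
      ≤ ∫⁻ u in Icc a b, ENNReal.ofReal ((ell s u) ^ (-(α / 2))) := by
    have h3 : {u | ell s u ≤ r} ∩ Icc a b ⊆
        {u | ENNReal.ofReal (r ^ (-(α / 2))) ≤ ENNReal.ofReal ((ell s u) ^ (-(α / 2)))} ∩ Icc a b := by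
      rintro u ⟨hu, hu'⟩
      refine ⟨ENNReal.ofReal_le_ofReal ?_, hu'⟩
      exact Real.rpow_le_rpow_of_nonpos (D.pos _ _) hu (by linarith)
    refine le_trans (mul_le_mul_right (measure_mono h3) _) ?_
    rw [← Measure.restrict_apply' measurableSet_Icc]
    exact mul_meas_ge_le_lintegral (D.meas_rpow _ _).ennreal_ofReal _
  have h4 := h2.trans h1
  have h5 : ENNReal.ofReal (r ^ (α / 2)) * (ENNReal.ofReal (r ^ (-(α / 2))) *
      volume ({u | ell s u ≤ r} ∩ Icc a b))
      ≤ ENNReal.ofReal (r ^ (α / 2)) * ENNReal.ofReal ((2 + C) * ρ ^ (-(α / 2)) * (b - a)) := by gcongr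
  rw [← mul_assoc, ← ENNReal.ofReal_mul hrp'.le, ← Real.rpow_add hr, add_neg_cancel, Real.rpow_zero,
    ENNReal.ofReal_one, one_mul, ← ENNReal.ofReal_mul hrp'.le] at h5
  refine h5.trans (ENNReal.ofReal_le_ofReal (le_of_eq ?_))
  ring

end EllData

end Pool.Agent.Helper86.TF
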