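import Mathlib

/-!
MP_e98778_an FULL, module G, G9 (LD), part 1: the abstract large deviation lemma on the `N`-adic tree.

Cells of level `j`: `{u | cell N w j u = k}`, `cell N w j u = ⌊u * (w * N ^ j)⌋`, an interval of length `1/(w N ^ j)`, which
is the union of the `N` cells `N k + i` (`i < N`) of level `j + 1`.

`x j k ≥ 1` is a function of cells with `(1/N) ∑_{i<N} x (j+1) (N k + i) ≤ x j k / 2 + B`. A cell is thick if
`x j k ≤ M`, `M = 8 B + 2`. Result `ld_tree`: in the cell `k` of level `j` the set of `u` for which fewer than `eps t` of the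
levels `j, ..., j + t - 1` are thick has measure at most `x j k * exp (-t/5) / (w N ^ j)`.
-/

open MeasureTheory Set Finset

namespace Pool.Agent.Helper86.TF

/-- Index of the cell of level `j` which contains `u`. -/
noncomputable def cell (N : ℕ) (w : ℝ) (j : ℕ) (u : ℝ) : ℤ := ⌊u * (w * (N : ℝ) ^ j)⌋

/-- The cell. -/
def Cell (N : ℕ) (w : ℝ) (j : ℕ) (k : ℤ) : Set ℝ := {u | cell N w j u = k}

theorem Cell_eq (N : ℕ) (hN : 0 < N) (w : ℝ) (hw : 0 < w) (j : ℕ) (k : ℤ) :
    Cell N w j k = Set.Ico ((k : ℝ) / (w * (N : ℝ) ^ j)) (((k : ℝ) + 1) / (w * (N : ℝ) ^ j)) := by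
  have hp : (0 : ℝ) < w * (N : ℝ) ^ j := by positivity
  ext u
  simp only [Cell, cell, Set.mem_ofPred_eq, Set.mem_Ico, Int.floor_eq_iff, div_le_iff₀ hp, lt_div_iff₀ hp]

theorem measurableSet_Cell (N : ℕ) (hN : 0 < N) (w : ℝ) (hw : 0 < w) (j : ℕ) (k : ℤ) : MeasurableSet (Cell N w j k) := by
  rw [Cell_eq N hN w hw]; exact measurableSet_Ico

theorem volume_Cell (N : ℕ) (hN : 0 < N) (w : ℝ) (hw : 0 < w) (j : ℕ) (k : ℤ) :
    volume (Cell N w j k) = ENNReal.ofReal (1 / (w * (N : ℝ) ^ j)) := by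
  rw [Cell_eq N hN w hw, Real.volume_Ico]
  congr 1
  ring

theorem cell_succ (N : ℕ) (hN : 0 < N) (w : ℝ) (j : ℕ) (u : ℝ) : cell N w (j + 1) u / (N : ℤ) = cell N w j u := by
  unfold cell
  have hNr : (0 : ℝ) < N := by exact_mod_cast hN
  have h1 : u * (w * (N : ℝ) ^ (j + 1)) = (u * (w * (N : ℝ) ^ j)) * N := by ring
  rw [h1]
  set y := u * (w * (N : ℝ) ^ j)
  apply le_antisymm
  · rw [Int.le_floor]
    have h2 : (⌊y * (N : ℝ)⌋ / (N : ℤ)) * (N : ℤ) ≤ ⌊y * (N : ℝ)⌋ := Int.ediv_mul_le _ (by omega)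
    have h3 : (((⌊y * (N : ℝ)⌋ / (N : ℤ)) * (N : ℤ) : ℤ) : ℝ) ≤ y * (N : ℝ) :=
      le_trans (by exact_mod_cast h2) (Int.floor_le _)
    push_cast at h3
    exact le_of_mul_le_mul_right h3 hNr
  · rw [Int.le_ediv_iff_mul_le (by omega)]
    rw [Int.le_floor]
    push_cast
    exact mul_le_mul_of_nonneg_right (Int.floor_le _) hNr.le

theorem Cell_eq_union (N : ℕ) (hN : 0 < N) (w : ℝ) (j : ℕ) (k : ℤ) :
    Cell N w j k = ⋃ i ∈ Finset.range N, Cell N w (j + 1) ((N : ℤ) * k + i) := by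
  ext u
  simp only [Set.mem_iUnion, exists_prop, Cell, Set.mem_ofPred_eq, Finset.mem_range]
  constructor
  · intro h
    have h1 := cell_succ N hN w j u
    rw [h] at h1
    have h2 := Int.emod_add_mul_ediv (cell N w (j + 1) u) (N : ℤ)
    have h3 := Int.emod_nonneg (cell N w (j + 1) u) (show (N : ℤ) ≠ 0 by omega)
    have h4 := Int.emod_lt_of_pos (cell N w (j + 1) u) (show (0 : ℤ) < N by omega)
    refine ⟨(cell N w (j + 1) u % (N : ℤ)).toNat, by omega, ?_⟩
    rw [h1] at h2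
    rw [Int.toNat_of_nonneg h3]
    linarith
  · rintro ⟨i, hi, h⟩
    rw [← cell_succ N hN w j u, h]
    have hi' : (i : ℤ) < N := by exact_mod_cast hi
    rw [add_comm, Int.add_mul_ediv_left _ _ (show (N : ℤ) ≠ 0 by omega),
      Int.ediv_eq_zero_of_lt (by positivity) hi', zero_add]

/-- The weight of a cell value: `8/5` if thin, `1/M0` if thick. -/
noncomputable def wt (M M0 y : ℝ) : ℝ := if y ≤ M then 1 / M0 else 8 / 5

theorem wt_pos {M M0 : ℝ} (h : 0 < M0) (y : ℝ) : 0 < wt M M0 y := by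
  unfold wt; split_ifs <;> positivity

/-- The product of the weights of the levels `j, ..., j + t - 1`. -/
noncomputable def Pw (N : ℕ) (w : ℝ) (x : ℕ → ℤ → ℝ) (M M0 : ℝ) (t j : ℕ) (u : ℝ) : ℝ :=
  ∏ i ∈ Finset.range t, wt M M0 (x (j + i) (cell N w (j + i) u))

theorem Pw_succ (N : ℕ) (w : ℝ) (x : ℕ → ℤ → ℝ) (M M0 : ℝ) (t j : ℕ) (u : ℝ) :
    Pw N w x M M0 (t + 1) j u = Pw N w x M M0 t (j + 1) u * wt M M0 (x j (cell N w j u)) := by
  unfold Pw
  rw [Finset.prod_range_succ']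
  congr 1
  apply Finset.prod_congr rfl
  intro i _
  rw [show j + (i + 1) = j + 1 + i by ring]

theorem lint_Pw (N : ℕ) (hN : 0 < N) (w : ℝ) (hw : 0 < w) (x : ℕ → ℤ → ℝ) (B : ℝ) (hB : 0 ≤ B) (h1 : ∀ j k, 1 ≤ x j k)
    (hx : ∀ j k, ∑ i ∈ Finset.range N, x (j + 1) ((N : ℤ) * k + i) ≤ N * (x j k / 2 + B))
    (M M0 : ℝ) (hM : 8 * B ≤ M) (hM0 : M / 2 + B ≤ M0) (hM0' : 0 < M0) (t : ℕ) :
    ∀ (j : ℕ) (k : ℤ), ∫⁻ u in Cell N w j k, ENNReal.ofReal (Pw N w x M M0 t j u)
      ≤ ENNReal.ofReal (x j k * (1 / (w * (N : ℝ) ^ j))) := by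
  have hNr : (0 : ℝ) < N := by exact_mod_cast hN
  induction t with
  | zero =>
    intro j k
    simp only [Pw, Finset.range_zero, Finset.prod_empty, ENNReal.ofReal_one, lintegral_const, one_mul,
      Measure.restrict_apply MeasurableSet.univ, Set.univ_inter]
    rw [volume_Cell N hN w hw]
    apply ENNReal.ofReal_le_ofReal
    have : (0 : ℝ) ≤ 1 / (w * (N : ℝ) ^ j) := by positivity
    nlinarith [h1 j k]
  | succ t ih =>
    intro j k
    have e1 : ∫⁻ u in Cell N w j k, ENNReal.ofReal (Pw N w x M M0 (t + 1) j u)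
        = ∫⁻ u in Cell N w j k, ENNReal.ofReal (Pw N w x M M0 t (j + 1) u) * ENNReal.ofReal (wt M M0 (x j k)) := by
      apply setLIntegral_congr_fun (measurableSet_Cell N hN w hw j k)
      intro u hu
      have hu' : cell N w j u = k := hu
      simp only []
      rw [Pw_succ, hu', ENNReal.ofReal_mul]
      exact Finset.prod_nonneg fun i _ => (wt_pos hM0' _).le
    rw [e1, lintegral_mul_const' _ _ ENNReal.ofReal_ne_top]
    have e2 : ∫⁻ u in Cell N w j k, ENNReal.ofReal (Pw N w x M M0 t (j + 1) u)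
        ≤ ENNReal.ofReal (∑ i ∈ Finset.range N, x (j + 1) ((N : ℤ) * k + i) * (1 / (w * (N : ℝ) ^ (j + 1)))) := by
      rw [Cell_eq_union N hN w, lintegral_biUnion_finset]
      · rw [ENNReal.ofReal_sum_of_nonneg]
        · exact Finset.sum_le_sum fun i _ => ih (j + 1) _
        · intro i _
          have := h1 (j + 1) ((N : ℤ) * k + i)
          positivity
      · intro i _ i' _ hii
        rw [Function.onFun, Set.disjoint_left]
        intro u hu hu'
        have a1 : cell N w (j + 1) u = (N : ℤ) * k + i := hu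
        have a2 : cell N w (j + 1) u = (N : ℤ) * k + i' := hu'
        apply hii
        have : (i : ℤ) = i' := by linarith
        exact_mod_cast this
      · intro i _
        exact measurableSet_Cell N hN w hw _ _
    calc (∫⁻ u in Cell N w j k, ENNReal.ofReal (Pw N w x M M0 t (j + 1) u)) * ENNReal.ofReal (wt M M0 (x j k))
        ≤ ENNReal.ofReal (∑ i ∈ Finset.range N, x (j + 1) ((N : ℤ) * k + i) * (1 / (w * (N : ℝ) ^ (j + 1))))
          * ENNReal.ofReal (wt M M0 (x j k)) := by gcongr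
      _ = ENNReal.ofReal ((∑ i ∈ Finset.range N, x (j + 1) ((N : ℤ) * k + i) * (1 / (w * (N : ℝ) ^ (j + 1))))
          * wt M M0 (x j k)) := by
          rw [ENNReal.ofReal_mul]
          apply Finset.sum_nonneg
          intro i _
          have := h1 (j + 1) ((N : ℤ) * k + i)
          positivity
      _ ≤ ENNReal.ofReal (x j k * (1 / (w * (N : ℝ) ^ j))) := by
          apply ENNReal.ofReal_le_ofReal
          rw [← Finset.sum_mul]
          have h2 : (∑ i ∈ Finset.range N, x (j + 1) ((N : ℤ) * k + i)) * (1 / (w * (N : ℝ) ^ (j + 1)))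
              ≤ (x j k / 2 + B) * (1 / (w * (N : ℝ) ^ j)) := by
            calc _ ≤ (N * (x j k / 2 + B)) * (1 / (w * (N : ℝ) ^ (j + 1))) := by
                  apply mul_le_mul_of_nonneg_right (hx j k); positivity
              _ = _ := by rw [pow_succ]; field_simp
          have h3 : (x j k / 2 + B) * wt M M0 (x j k) ≤ x j k := by
            have hxk := h1 j k
            unfold wt
            split_ifs with h4
            · rw [mul_one_div, div_le_iff₀ hM0']
              nlinarith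
            · push Not at h4
              linarith
          have h4 : 0 ≤ 1 / (w * (N : ℝ) ^ j) := by positivity
          calc _ ≤ (x j k / 2 + B) * (1 / (w * (N : ℝ) ^ j)) * wt M M0 (x j k) :=
                mul_le_mul_of_nonneg_right h2 (wt_pos hM0' _).le
            _ = ((x j k / 2 + B) * wt M M0 (x j k)) * (1 / (w * (N : ℝ) ^ j)) := by ring
            _ ≤ _ := mul_le_mul_of_nonneg_right h3 h4

/-- The number of thick levels among `j, ..., j + t - 1`. -/
noncomputable def thick (N : ℕ) (w : ℝ) (x : ℕ → ℤ → ℝ) (M : ℝ) (t j : ℕ) (u : ℝ) : ℕ :=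
  ((Finset.range t).filter fun i => x (j + i) (cell N w (j + i) u) ≤ M).card

theorem Pw_lower (N : ℕ) (w : ℝ) (x : ℕ → ℤ → ℝ) (B : ℝ) (hB : 0 ≤ B) (t j : ℕ) (u : ℝ)
    (h : (thick N w x (8 * B + 2) t j u : ℝ) * (5 * Real.log (8 * B + 8 / 5)) < t) :
    Real.exp (t / 5) ≤ Pw N w x (8 * B + 2) (5 * B + 1) t j u := by
  have hM0 : 0 < 5 * B + 1 := by linarith
  have hlog : Real.log (8 / 5) ≥ 2 / 5 := by
    rw [ge_iff_le, Real.le_log_iff_exp_le (by norm_num)]
    have h1 : Real.exp (2 / 5) ^ 5 = Real.exp 1 ^ 2 := by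
      rw [← Real.exp_nat_mul, ← Real.exp_nat_mul]; norm_num
    have h2 : Real.exp 1 ^ 2 ≤ (2.7182818286 : ℝ) ^ 2 :=
      pow_le_pow_left₀ (Real.exp_pos _).le Real.exp_one_lt_d9.le 2
    by_contra hc
    push Not at hc
    have h3 : ((8 : ℝ) / 5) ^ 5 < Real.exp (2 / 5) ^ 5 := pow_lt_pow_left₀ hc (by norm_num) (by norm_num)
    rw [h1] at h3
    norm_num at h2 h3
    linarith
  have hP : Pw N w x (8 * B + 2) (5 * B + 1) t j u
      = (8 / 5 : ℝ) ^ t * (1 / (8 * B + 8 / 5)) ^ (thick N w x (8 * B + 2) t j u) := by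
    unfold Pw thick wt
    have e : ∀ i ∈ Finset.range t, (if x (j + i) (cell N w (j + i) u) ≤ 8 * B + 2 then 1 / (5 * B + 1) else (8 / 5 : ℝ))
        = (8 / 5 : ℝ) * (if x (j + i) (cell N w (j + i) u) ≤ 8 * B + 2 then 1 / (8 * B + 8 / 5) else 1) := by
      intro i _
      split_ifs
      · have : 8 * B + 8 / 5 ≠ 0 := by positivity
        field_simp
      · ring
    rw [Finset.prod_congr rfl e, Finset.prod_mul_distrib, Finset.prod_const, Finset.card_range]
    congr 1
    rw [← Finset.prod_filter_mul_prod_filter_not (Finset.range t)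
      (fun i => x (j + i) (cell N w (j + i) u) ≤ 8 * B + 2)]
    rw [Finset.prod_congr rfl (g := fun _ => 1 / (8 * B + 8 / 5)), Finset.prod_const]
    · rw [Finset.prod_eq_one, mul_one]
      intro i hi
      rw [Finset.mem_filter] at hi
      rw [if_neg hi.2]
    · intro i hi
      rw [Finset.mem_filter] at hi
      rw [if_pos hi.2]
  set n1 := thick N w x (8 * B + 2) t j u
  have hpos : 0 < 8 * B + 8 / 5 := by positivity
  have hPpos : 0 < (8 / 5 : ℝ) ^ t * (1 / (8 * B + 8 / 5)) ^ n1 := by positivity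
  rw [hP, ← Real.le_log_iff_exp_le hPpos, Real.log_mul (by positivity) (by positivity), Real.log_pow,
    Real.log_pow, one_div, Real.log_inv]
  have ht : (0 : ℝ) ≤ t := by positivity
  nlinarith

theorem measurable_Pw (N : ℕ) (w : ℝ) (x : ℕ → ℤ → ℝ) (M M0 : ℝ) (t j : ℕ) : Measurable (Pw N w x M M0 t j) := by
  unfold Pw
  refine Finset.measurable_fun_prod _ fun i _ => ?_
  have h1 : Measurable fun u : ℝ => cell N w (j + i) u := by
    unfold cell
    exact Int.measurable_floor.comp (measurable_id.mul_const _)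
  have h2 : Measurable fun k : ℤ => wt M M0 (x (j + i) k) := measurable_from_top
  exact h2.comp h1

/-- Abstract large deviation estimate: few thick levels are improbable. -/
theorem ld_tree (N : ℕ) (hN : 0 < N) (w : ℝ) (hw : 0 < w) (x : ℕ → ℤ → ℝ) (B : ℝ) (hB : 0 ≤ B) (h1 : ∀ j k, 1 ≤ x j k)
    (hx : ∀ j k, ∑ i ∈ Finset.range N, x (j + 1) ((N : ℤ) * k + i) ≤ N * (x j k / 2 + B))
    (t j : ℕ) (k : ℤ) :
    volume {u | u ∈ Cell N w j k ∧ (thick N w x (8 * B + 2) t j u : ℝ) * (5 * Real.log (8 * B + 8 / 5)) < t}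
      ≤ ENNReal.ofReal (x j k * Real.exp (-(t / 5)) * (1 / (w * (N : ℝ) ^ j))) := by
  have h2 := lint_Pw N hN w hw x B hB h1 hx (8 * B + 2) (5 * B + 1) (by linarith) (by linarith) (by linarith) t j k
  have h3 : ENNReal.ofReal (Real.exp (t / 5)) *
      volume {u | u ∈ Cell N w j k ∧ (thick N w x (8 * B + 2) t j u : ℝ) * (5 * Real.log (8 * B + 8 / 5)) < t}
      ≤ ∫⁻ u in Cell N w j k, ENNReal.ofReal (Pw N w x (8 * B + 2) (5 * B + 1) t j u) := by
    have h4 : {u | u ∈ Cell N w j k ∧ (thick N w x (8 * B + 2) t j u : ℝ) * (5 * Real.log (8 * B + 8 / 5)) < t}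
        ⊆ {u | ENNReal.ofReal (Real.exp (t / 5)) ≤ ENNReal.ofReal (Pw N w x (8 * B + 2) (5 * B + 1) t j u)}
          ∩ Cell N w j k := by
      rintro u ⟨hu, hu'⟩
      exact ⟨ENNReal.ofReal_le_ofReal (Pw_lower N w x B hB t j u hu'), hu⟩
    refine le_trans (mul_le_mul_right (measure_mono h4) _) ?_
    rw [← Measure.restrict_apply' (measurableSet_Cell N hN w hw j k)]
    exact mul_meas_ge_le_lintegral (measurable_Pw N w x _ _ t j).ennreal_ofReal _
  have h5 := le_trans h3 h2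
  have hN' : (0 : ℝ) ≤ 1 / (w * (N : ℝ) ^ j) := by positivity
  have hxk := h1 j k
  have h6 : ENNReal.ofReal (Real.exp (-(t / 5))) * (ENNReal.ofReal (Real.exp (t / 5)) *
      volume {u | u ∈ Cell N w j k ∧ (thick N w x (8 * B + 2) t j u : ℝ) * (5 * Real.log (8 * B + 8 / 5)) < t})
      ≤ ENNReal.ofReal (Real.exp (-(t / 5))) * ENNReal.ofReal (x j k * (1 / (w * (N : ℝ) ^ j))) := by gcongr
  rw [← mul_assoc, ← ENNReal.ofReal_mul (Real.exp_pos _).le, ← Real.exp_add, neg_add_cancel, Real.exp_zero,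
    ENNReal.ofReal_one, one_mul, ← ENNReal.ofReal_mul (Real.exp_pos _).le] at h6
  refine le_trans h6 (ENNReal.ofReal_le_ofReal (le_of_eq ?_))
  ring

end Pool.Agent.Helper86.TF
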